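import Mathlib

/-! C1 (SHORT, only Mathlib): complex to real. PLAN. `‖a+b‖² ≥ (‖a‖-‖b‖)²`, `‖a-b‖² ≥ (‖a‖-‖b‖)²`
(`abs_norm_sub_norm_le`); `‖w0+w1‖² + ‖w0-w1‖² = 2(‖w0‖²+‖w1‖²)` (parallelogram) and
`‖w0-w1‖² ≤ (1+‖w1‖)²` give `A‖w0+w1‖² + B‖w0-w1‖² = 2A(1+‖w1‖²) - (A-B)‖w0-w1‖² ≥
2A(1+‖w1‖²) - (A-B)(1+‖w1‖)² = (A+B)(1+‖w1‖²) - 2(A-B)‖w1‖`. -/

set_option autoImplicit false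

namespace Pool.Agent.LibCH71

theorem C0 (a b : ℂ) : (‖a‖ - ‖b‖) ^ 2 ≤ ‖a + b‖ ^ 2 ∧ (‖a‖ - ‖b‖) ^ 2 ≤ ‖a - b‖ ^ 2 := by
  constructor
  · have h := abs_norm_sub_norm_le a (-b)
    rw [norm_neg, sub_neg_eq_add] at h
    rw [← sq_abs (‖a‖ - ‖b‖)]
    exact pow_le_pow_left₀ (abs_nonneg _) h 2
  · have h := abs_norm_sub_norm_le a b
    rw [← sq_abs (‖a‖ - ‖b‖)]
    exact pow_le_pow_left₀ (abs_nonneg _) h 2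

theorem C1 (w0 w1 w2 w3 w4 : ℂ) (A B : ℝ) (hB : 0 ≤ B) (hAB : B ≤ A) (h0 : ‖w0‖ = 1) :
    (A + B) * (1 + ‖w1‖ ^ 2) - 2 * (A - B) * ‖w1‖ + A * (‖w1‖ - ‖w2‖) ^ 2 + B * (1 - ‖w2‖) ^ 2
      + A * (‖w2‖ - ‖w3‖) ^ 2 + B * (‖w1‖ - ‖w3‖) ^ 2 + A * (‖w3‖ - ‖w4‖) ^ 2
      + B * (‖w2‖ - ‖w4‖) ^ 2 ≤
    A * (‖w0 + w1‖ ^ 2 + ‖w1 + w2‖ ^ 2 + ‖w2 + w3‖ ^ 2 + ‖w3 + w4‖ ^ 2)
      + B * (‖w0 - w1‖ ^ 2 + ‖w0 - w2‖ ^ 2 + ‖w1 - w3‖ ^ 2 + ‖w2 - w4‖ ^ 2) := by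
  have hA : 0 ≤ A := hB.trans hAB
  have hpar : ‖w0 + w1‖ ^ 2 + ‖w0 - w1‖ ^ 2 = 2 * (1 + ‖w1‖ ^ 2) := by
    have h := parallelogram_law_with_norm ℝ w0 w1
    rw [h0] at h
    nlinarith [h]
  have hle : ‖w0 - w1‖ ^ 2 ≤ (1 + ‖w1‖) ^ 2 := by
    have h := norm_sub_le w0 w1
    rw [h0] at h
    exact pow_le_pow_left₀ (norm_nonneg _) h 2
  have h01 : (A + B) * (1 + ‖w1‖ ^ 2) - 2 * (A - B) * ‖w1‖ ≤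
      A * ‖w0 + w1‖ ^ 2 + B * ‖w0 - w1‖ ^ 2 := by
    have h1 : (A - B) * ‖w0 - w1‖ ^ 2 ≤ (A - B) * (1 + ‖w1‖) ^ 2 :=
      mul_le_mul_of_nonneg_left hle (by linarith)
    have h2 : A * ‖w0 + w1‖ ^ 2 + B * ‖w0 - w1‖ ^ 2 =
        2 * A * (1 + ‖w1‖ ^ 2) - (A - B) * ‖w0 - w1‖ ^ 2 := by
      linear_combination A * hpar
    rw [h2]
    nlinarith [h1]
  have e1 := mul_le_mul_of_nonneg_left (C0 w1 w2).1 hA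
  have e2 := mul_le_mul_of_nonneg_left (C0 w2 w3).1 hA
  have e3 := mul_le_mul_of_nonneg_left (C0 w3 w4).1 hA
  have f1 := mul_le_mul_of_nonneg_left (C0 w0 w2).2 hB
  have f2 := mul_le_mul_of_nonneg_left (C0 w1 w3).2 hB
  have f3 := mul_le_mul_of_nonneg_left (C0 w2 w4).2 hB
  rw [h0] at f1
  linarith

end Pool.Agent.LibCH71
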