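import Pool.Agent.LibCH71.C1

/-! C2 (SHORT): the off-lattice class on the side S. `h1` is free, `h0 = w`, `g1, g2, g3` the lower ones.
PLAN. `C0` for `‖h0+g1‖, ‖h0-g2‖, ‖g1+g2‖, ‖g1-g3‖`, and with `A = 31/100, B = 19/100`:
`A‖h1+h0‖² + B‖h1-g1‖² ≥ (AB/(A+B)) ‖h0+g1‖²` (as `h0+g1 = (h1+h0) - (h1-g1)`;
`‖p-q‖² ≤ (1+B/A)... `: `AB‖p-q‖² ≤ (A+B)(A‖p‖²+B‖q‖²)` since the difference is `‖A p + B q‖²`),
`AB/(A+B) = 1178/10000`. -/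

set_option autoImplicit false

namespace Pool.Agent.LibCH71

private theorem C2_add (p q : ℂ) : (‖p‖ - ‖q‖) ^ 2 ≤ ‖p + q‖ ^ 2 := by
  have h1 : |‖p‖ - ‖q‖| ≤ ‖p + q‖ := by
    have h := abs_norm_sub_norm_le p (-q)
    rwa [norm_neg, sub_neg_eq_add] at h
  rw [← sq_abs]
  exact pow_le_pow_left₀ (abs_nonneg _) h1 2

private theorem C2_sub (p q : ℂ) : (‖p‖ - ‖q‖) ^ 2 ≤ ‖p - q‖ ^ 2 := by
  have h := C2_add p (-q)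
  rwa [norm_neg, ← sub_eq_add_neg] at h

private theorem C2_par (p q : ℂ) :
    1178 / 10000 * ‖p - q‖ ^ 2 ≤ 31 / 100 * ‖p‖ ^ 2 + 19 / 100 * ‖q‖ ^ 2 := by
  have e1 : ‖p - q‖ ^ 2 = (p.re - q.re) ^ 2 + (p.im - q.im) ^ 2 := by
    rw [← Complex.normSq_eq_norm_sq, Complex.normSq_apply, Complex.sub_re, Complex.sub_im]
    ring
  have e2 : ‖p‖ ^ 2 = p.re ^ 2 + p.im ^ 2 := by
    rw [← Complex.normSq_eq_norm_sq, Complex.normSq_apply]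
    ring
  have e3 : ‖q‖ ^ 2 = q.re ^ 2 + q.im ^ 2 := by
    rw [← Complex.normSq_eq_norm_sq, Complex.normSq_apply]
    ring
  rw [e1, e2, e3]
  nlinarith [sq_nonneg (31 * p.re + 19 * q.re), sq_nonneg (31 * p.im + 19 * q.im)]

theorem C2 (h1 h0 g1 g2 g3 : ℂ) :
    4278 / 10000 * (‖h0‖ - ‖g1‖) ^ 2 + 19 / 100 * (‖h0‖ - ‖g2‖) ^ 2 + 31 / 100 * (‖g1‖ - ‖g2‖) ^ 2
      + 19 / 100 * (‖g1‖ - ‖g3‖) ^ 2 ≤
    31 / 100 * (‖h1 + h0‖ ^ 2 + ‖h0 + g1‖ ^ 2 + ‖g1 + g2‖ ^ 2)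
      + 19 / 100 * (‖h1 - g1‖ ^ 2 + ‖h0 - g2‖ ^ 2 + ‖g1 - g3‖ ^ 2) := by
  have a1 := C2_add h0 g1
  have a2 := C2_sub h0 g2
  have a3 := C2_add g1 g2
  have a4 := C2_sub g1 g3
  have a5 := C2_par (h1 + h0) (h1 - g1)
  have e : h1 + h0 - (h1 - g1) = h0 + g1 := by ring
  rw [e] at a5
  linarith

end Pool.Agent.LibCH71
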