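import Mathlib

/-! C3 : the Schur complement (A = 35/100, B = C = 1/10), three free entries `h1, h2, h3`. -/

set_option autoImplicit false

namespace Pool.Agent.LibCH71

private theorem C3_real (h3 h2 h1 h0 g1 : ℝ) :
    2211 / 10865 * h0 ^ 2 + 2 * (245 / 4346) * (h0 * g1) + 375 / 4346 * g1 ^ 2 ≤
    35 / 100 * ((h1 + h0) ^ 2 + (h2 + h1) ^ 2 + (h3 + h2) ^ 2)
      + 1 / 10 * ((h1 - g1) ^ 2 + (h2 - h0) ^ 2 + (h3 - h1) ^ 2)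
      + 1 / 10 * (h1 ^ 2 + h2 ^ 2 + h3 ^ 2) := by
  have e : 35 / 100 * ((h1 + h0) ^ 2 + (h2 + h1) ^ 2 + (h3 + h2) ^ 2)
      + 1 / 10 * ((h1 - g1) ^ 2 + (h2 - h0) ^ 2 + (h3 - h1) ^ 2)
      + 1 / 10 * (h1 ^ 2 + h2 ^ 2 + h3 ^ 2) =
      11 / 20 * (h3 + 7 / 11 * h2 - 2 / 11 * h1) ^ 2
      + 149 / 220 * (h2 + 91 / 149 * h1 - 22 / 149 * h0) ^ 2
      + 2173 / 2980 * (h1 + 1225 / 2173 * h0 - 298 / 2173 * g1) ^ 2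
      + (2211 / 10865 * h0 ^ 2 + 2 * (245 / 4346) * (h0 * g1) + 375 / 4346 * g1 ^ 2) := by
    ring
  rw [e]
  have : 0 ≤ 11 / 20 * (h3 + 7 / 11 * h2 - 2 / 11 * h1) ^ 2
      + 149 / 220 * (h2 + 91 / 149 * h1 - 22 / 149 * h0) ^ 2
      + 2173 / 2980 * (h1 + 1225 / 2173 * h0 - 298 / 2173 * g1) ^ 2 := by positivity
  linarith

theorem C3 (h3 h2 h1 h0 g1 : ℂ) :
    2211 / 10865 * ‖h0‖ ^ 2 - 2 * (245 / 4346) * ‖h0‖ * ‖g1‖ + 375 / 4346 * ‖g1‖ ^ 2 ≤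
    35 / 100 * (‖h1 + h0‖ ^ 2 + ‖h2 + h1‖ ^ 2 + ‖h3 + h2‖ ^ 2)
      + 1 / 10 * (‖h1 - g1‖ ^ 2 + ‖h2 - h0‖ ^ 2 + ‖h3 - h1‖ ^ 2)
      + 1 / 10 * (‖h1‖ ^ 2 + ‖h2‖ ^ 2 + ‖h3‖ ^ 2) := by
  have hs : ∀ z : ℂ, ‖z‖ ^ 2 = z.re ^ 2 + z.im ^ 2 := by
    intro z
    rw [← Complex.normSq_eq_norm_sq, Complex.normSq_apply]
    ring
  have hre := C3_real h3.re h2.re h1.re h0.re g1.re
  have him := C3_real h3.im h2.im h1.im h0.im g1.im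
  have hc : -(‖h0‖ * ‖g1‖) ≤ h0.re * g1.re + h0.im * g1.im := by
    have h5 : (h0.re * g1.re + h0.im * g1.im) ^ 2 ≤ (‖h0‖ * ‖g1‖) ^ 2 := by
      rw [mul_pow, hs, hs]
      nlinarith [sq_nonneg (h0.re * g1.im - h0.im * g1.re)]
    have h6 := abs_le_of_sq_le_sq h5 (by positivity)
    exact (abs_le.1 h6).1
  rw [hs (h1 + h0), hs (h2 + h1), hs (h3 + h2), hs (h1 - g1), hs (h2 - h0), hs (h3 - h1), hs h1,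
    hs h2, hs h3]
  simp only [Complex.add_re, Complex.add_im, Complex.sub_re, Complex.sub_im]
  have e0 : ‖h0‖ ^ 2 = h0.re ^ 2 + h0.im ^ 2 := hs h0
  have e1 : ‖g1‖ ^ 2 = g1.re ^ 2 + g1.im ^ 2 := hs g1
  have e2 : 2 * (245 / 4346) * ‖h0‖ * ‖g1‖ = 2 * (245 / 4346) * (‖h0‖ * ‖g1‖) := by ring
  rw [e0, e1, e2]
  linarith

end Pool.Agent.LibCH71
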