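import Mathlib

/-! C4 (SHORT, only Mathlib): two layers, A = 3/10, C = 4/10 (case U2). PLAN.
`A‖p+q‖² + C‖q‖² ≥ AC/(A+C) ‖p‖² = (12/70)‖p‖²`, then with `C' = C + 12/70 = 4/7`:
`A‖w+p‖² + C'‖p‖² ≥ A C'/(A+C') ‖w‖² = (12/61)‖w‖²`. Each: `(a+b)(a‖x+y‖²+b‖y‖²) - ab‖x‖² = ‖a(x+y)+b y‖²`
(up to the identity of squares; go to real and imaginary parts, `nlinarith`). -/

set_option autoImplicit false

namespace Pool.Agent.LibCH71

private theorem C4_real (w p q : ℝ) :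
    12 / 61 * (w * w) ≤ 3 / 10 * ((w + p) * (w + p) + (p + q) * (p + q)) +
      4 / 10 * (p * p + q * q) := by
  nlinarith [mul_self_nonneg (q + 3 / 7 * p), mul_self_nonneg (p + 21 / 61 * w)]

theorem C4 (w p q : ℂ) :
    12 / 61 * ‖w‖ ^ 2 ≤ 3 / 10 * (‖w + p‖ ^ 2 + ‖p + q‖ ^ 2) + 4 / 10 * (‖p‖ ^ 2 + ‖q‖ ^ 2) := by
  simp only [← Complex.normSq_eq_norm_sq, Complex.normSq_apply, Complex.add_re, Complex.add_im]
  have h1 := C4_real w.re p.re q.re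
  have h2 := C4_real w.im p.im q.im
  linarith

end Pool.Agent.LibCH71
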