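import Mathlib

/-! # LibCH71 : an explicit upper bound for the Clunie-Hayman constant (MP_58b66c_an)

THEOREM (goal). For every transcendental entire `f = ∑ a_n z^n` there are arbitrarily large `r` with
`m(r)/M(r) ≤ 0.6249 < 5/8`.

Here are the definitions. `β : ℤ → ℂ` is the sequence of normalised coefficients on a circle,
`β m = a_{n+m} ρ^{n+m}/m(ρ)`. -/

set_option autoImplicit false

namespace Pool.Agent.LibCH71

/-- `e(x) = exp(2πix)` -/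
noncomputable def ee (x : ℝ) : ℂ := Complex.exp (2 * Real.pi * Complex.I * x)

/-- the two quadratic rows -/
noncomputable def EA (β : ℤ → ℂ) (u : ℂ) (d m : ℤ) : ℝ := ‖β m + u * β (m - d)‖ ^ 2

noncomputable def EB (β : ℤ → ℂ) (u : ℂ) (d m : ℤ) : ℝ := ‖β m - u ^ 2 * β (m - 2 * d)‖ ^ 2

/-- Parseval property (Bessel's inequality against the weights
`A|1+u e(dx)|^2 + B|1-u^2 e(2dx)|^2 + C`, of mean `2A+2B+C = 1`). -/
def PV (β : ℤ → ℂ) (X : ℝ) : Prop :=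
  ∀ u : ℂ, ‖u‖ = 1 → ∀ d : ℤ, d ≠ 0 → ∀ A B C : ℝ, 0 ≤ A → 0 ≤ B → 0 ≤ C →
    2 * A + 2 * B + C = 1 → ∀ S₁ S₂ S₃ : Finset ℤ,
      A * ∑ m ∈ S₁, EA β u d m + B * ∑ m ∈ S₂, EB β u d m + C * ∑ m ∈ S₃, ‖β m‖ ^ 2 ≤ X

/-- The data on a circle at which the two terms of index `0` and `d` are both maximal
(indices are centred at the first of them). `dl`, `dr` are the gaps to the left and to the right,
`tl`, `tr` the ratios of the radii. -/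
structure Circ (β : ℤ → ℂ) (d dl dr : ℕ) (tl tr X : ℝ) : Prop where
  d_pos : 0 < d
  dl_pos : 0 < dl
  dr_pos : 0 < dr
  tl0 : 0 ≤ tl
  tl1 : tl ≤ 1
  tr0 : 0 ≤ tr
  tr1 : tr ≤ 1
  b0 : ‖β 0‖ = 1
  bd : ‖β d‖ = 1
  left : ∀ j : ℕ, ‖β (-(j : ℤ))‖ ≤ tl ^ j
  leq : ‖β (-(dl : ℤ))‖ = tl ^ dl
  right : ∀ j : ℕ, ‖β ((d : ℤ) + j)‖ ≤ tr ^ j
  req : ‖β ((d : ℤ) + dr)‖ = tr ^ dr
  pv : PV β X

/-- normalised coefficients on the circle of radius `r`, centred at `n`, divided by `μ` -/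
noncomputable def bet (a : ℕ → ℂ) (r μ : ℝ) (n : ℕ) (m : ℤ) : ℂ :=
  if 0 ≤ (n : ℤ) + m then a ((n : ℤ) + m).toNat * (r : ℂ) ^ ((n : ℤ) + m).toNat / (μ : ℂ) else 0

/-- Newton polygon data of a power series: vertices `n k`, radii `ρ k`. -/
structure NP (a : ℕ → ℂ) (n : ℕ → ℕ) (ρ : ℕ → ℝ) : Prop where
  mono : ∀ k, n k < n (k + 1)
  rpos : ∀ k, 0 < ρ k
  rmono : ∀ k, ρ k < ρ (k + 1)
  nz : ∀ k, a (n k) ≠ 0
  eq : ∀ k, ‖a (n k)‖ * ρ k ^ n k = ‖a (n (k + 1))‖ * ρ k ^ n (k + 1)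
  mx : ∀ k j, ‖a j‖ * ρ k ^ j ≤ ‖a (n k)‖ * ρ k ^ n k
  unb : Filter.Tendsto ρ Filter.atTop Filter.atTop

end Pool.Agent.LibCH71
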