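import Pool.Agent.LibCH71.Defs

/-! Q1 (MEDIUM, only Mathlib): the circle data from the Newton polygon. PLAN. Write
`μ = ‖a (n (k+1))‖ ρ_{k+1}^(n (k+1)) > 0`. `‖bet m‖ = ‖a_{N+m}‖ ρ_{k+1}^{N+m}/μ`, `N = n (k+1)`, or `0`.
`b0`: `μ/μ`; `bd`: `h.eq (k+1)`. `left`: for `N - j ≥ 0`:
`‖a_{N-j}‖ ρ_k^{N-j} ≤ ‖a (n k)‖ ρ_k^(n k) = ‖a_N‖ ρ_k^N` (`h.mx k`, `h.eq k`); multiply by
`(ρ_{k+1}/ρ_k)^{N-j}`: `‖a_{N-j}‖ ρ_{k+1}^{N-j} ≤ ‖a_N‖ ρ_{k+1}^N (ρ_k/ρ_{k+1})^j`; `leq` is the equality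
case `N - dl = n k`. `right`, `req`: the same with `ρ_{k+2}`: `h.mx (k+2)`, `h.eq (k+1)`,
`h.eq (k+2)`; `N + d = n (k+2)`. -/

set_option autoImplicit false

namespace Pool.Agent.LibCH71

private theorem Q1_bet (a : ℕ → ℂ) (r μ : ℝ) (hr : 0 < r) (hμ : 0 < μ) (N : ℕ) (m : ℤ) (M : ℕ)
    (h : (N : ℤ) + m = (M : ℤ)) : ‖bet a r μ N m‖ = ‖a M‖ * r ^ M / μ := by
  unfold bet
  rw [h, if_pos (Int.natCast_nonneg M), Int.toNat_natCast, norm_div, norm_mul, norm_pow, Complex.norm_real,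
    Complex.norm_real, Real.norm_of_nonneg hr.le, Real.norm_of_nonneg hμ.le]

private theorem Q1_L (A B s r : ℝ) (M j : ℕ) (hs : 0 < s) (hr : 0 < r) (hB : 0 < B)
    (h : A * s ^ M ≤ B * s ^ (M + j)) : A * r ^ M / (B * r ^ (M + j)) ≤ (s / r) ^ j := by
  have h1 : A ≤ B * s ^ j := by
    rw [pow_add] at h
    have h2 : A * s ^ M ≤ (B * s ^ j) * s ^ M := by
      calc A * s ^ M ≤ B * (s ^ M * s ^ j) := h
        _ = (B * s ^ j) * s ^ M := by ring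
    exact le_of_mul_le_mul_right h2 (pow_pos hs M)
  rw [div_le_iff₀ (mul_pos hB (pow_pos hr _)), div_pow]
  have h3 : s ^ j / r ^ j * (B * r ^ (M + j)) = (B * s ^ j) * r ^ M := by
    rw [pow_add]
    field_simp
  rw [h3]
  exact mul_le_mul_of_nonneg_right h1 (pow_pos hr M).le

private theorem Q1_Le (A B s r : ℝ) (M j : ℕ) (hs : 0 < s) (hr : 0 < r) (hB : 0 < B)
    (h : A * s ^ M = B * s ^ (M + j)) : A * r ^ M / (B * r ^ (M + j)) = (s / r) ^ j := by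
  have h1 : A = B * s ^ j := by
    rw [pow_add] at h
    have h2 : A * s ^ M = (B * s ^ j) * s ^ M := by
      rw [h]
      ring
    exact mul_right_cancel₀ (pow_pos hs M).ne' h2
  rw [div_eq_iff (mul_pos hB (pow_pos hr _)).ne', div_pow]
  have h3 : s ^ j / r ^ j * (B * r ^ (M + j)) = (B * s ^ j) * r ^ M := by
    rw [pow_add]
    field_simp
  rw [h3, h1]

private theorem Q1_R (A B s r : ℝ) (M j : ℕ) (hs : 0 < s) (hr : 0 < r) (hB : 0 < B)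
    (h : A * s ^ (M + j) ≤ B * s ^ M) : A * r ^ (M + j) / (B * r ^ M) ≤ (r / s) ^ j := by
  have h1 : A * s ^ j ≤ B := by
    rw [pow_add] at h
    have h2 : (A * s ^ j) * s ^ M ≤ B * s ^ M := by
      calc (A * s ^ j) * s ^ M = A * (s ^ M * s ^ j) := by ring
        _ ≤ B * s ^ M := h
    exact le_of_mul_le_mul_right h2 (pow_pos hs M)
  rw [div_le_iff₀ (mul_pos hB (pow_pos hr _)), div_pow]
  have h3 : A * r ^ (M + j) = (A * s ^ j) * (r ^ (M + j) / s ^ j) := by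
    field_simp
  have h4 : r ^ j / s ^ j * (B * r ^ M) = B * (r ^ (M + j) / s ^ j) := by
    rw [pow_add]
    ring
  rw [h3, h4]
  exact mul_le_mul_of_nonneg_right h1 (div_pos (pow_pos hr _) (pow_pos hs _)).le

private theorem Q1_Re (A B s r : ℝ) (M j : ℕ) (hs : 0 < s) (hr : 0 < r) (hB : 0 < B)
    (h : A * s ^ (M + j) = B * s ^ M) : A * r ^ (M + j) / (B * r ^ M) = (r / s) ^ j := by
  have h1 : A * s ^ j = B := by
    rw [pow_add] at h
    have h2 : (A * s ^ j) * s ^ M = B * s ^ M := by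
      rw [← h]
      ring
    exact mul_right_cancel₀ (pow_pos hs M).ne' h2
  rw [div_eq_iff (mul_pos hB (pow_pos hr _)).ne', div_pow]
  have h3 : A * r ^ (M + j) = (A * s ^ j) * (r ^ (M + j) / s ^ j) := by
    field_simp
  have h4 : r ^ j / s ^ j * (B * r ^ M) = B * (r ^ (M + j) / s ^ j) := by
    rw [pow_add]
    ring
  rw [h3, h4, h1]

theorem Q1 (a : ℕ → ℂ) (n : ℕ → ℕ) (ρ : ℕ → ℝ) (h : NP a n ρ) (k : ℕ) (X : ℝ)
    (hX : PV (bet a (ρ (k + 1)) (‖a (n (k + 1))‖ * ρ (k + 1) ^ n (k + 1)) (n (k + 1))) X) :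
    Circ (bet a (ρ (k + 1)) (‖a (n (k + 1))‖ * ρ (k + 1) ^ n (k + 1)) (n (k + 1)))
      (n (k + 2) - n (k + 1)) (n (k + 1) - n k) (n (k + 3) - n (k + 2))
      (ρ k / ρ (k + 1)) (ρ (k + 1) / ρ (k + 2)) X := by
  have hr := h.rpos (k + 1)
  have hs := h.rpos k
  have ht := h.rpos (k + 2)
  have m1 := h.mono k
  have m2 : n (k + 1) < n (k + 2) := h.mono (k + 1)
  have m3 : n (k + 2) < n (k + 3) := h.mono (k + 2)
  have hN : 0 < ‖a (n (k + 1))‖ := norm_pos_iff.2 (h.nz (k + 1))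
  have hN2 : 0 < ‖a (n (k + 2))‖ := norm_pos_iff.2 (h.nz (k + 2))
  have hμ : 0 < ‖a (n (k + 1))‖ * ρ (k + 1) ^ n (k + 1) := mul_pos hN (pow_pos hr _)
  have hμ2 : ‖a (n (k + 1))‖ * ρ (k + 1) ^ n (k + 1) = ‖a (n (k + 2))‖ * ρ (k + 1) ^ n (k + 2) := h.eq (k + 1)
  have rk := h.rmono k
  have rk1 := h.rmono (k + 1)
  refine ⟨by omega, by omega, ?_, (div_pos hs hr).le, ?_, (div_pos hr ht).le, ?_, ?_, ?_, ?_, ?_, ?_, ?_, hX⟩
  · have : n (k + 2) < n (k + 3) := m3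
    omega
  · exact (div_le_one hr).2 rk.le
  · exact (div_le_one ht).2 rk1.le
  · rw [Q1_bet a _ _ hr hμ _ 0 (n (k + 1)) (by ring)]
    exact div_self hμ.ne'
  · rw [Q1_bet a _ _ hr hμ _ _ (n (k + 2)) (by push_cast [Nat.cast_sub m2.le]; ring), ← hμ2]
    exact div_self hμ.ne'
  · intro j
    rcases le_or_gt j (n (k + 1)) with hj | hj
    · rw [Q1_bet a _ _ hr hμ _ _ (n (k + 1) - j) (by push_cast [Nat.cast_sub hj]; ring)]
      have h1 := h.mx k (n (k + 1) - j)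
      rw [h.eq k] at h1
      obtain ⟨M, hM⟩ : ∃ M, n (k + 1) = M + j := ⟨n (k + 1) - j, by omega⟩
      have hM2 : n (k + 1) - j = M := by omega
      rw [hM2] at h1 ⊢
      have hB := hN
      rw [hM] at h1 hB ⊢
      exact Q1_L _ _ _ _ M j hs hr hB h1
    · have h0 : bet a (ρ (k + 1)) (‖a (n (k + 1))‖ * ρ (k + 1) ^ n (k + 1)) (n (k + 1)) (-(j : ℤ)) = 0 := by
        unfold bet
        rw [if_neg (by omega)]
      rw [h0, norm_zero]
      exact pow_nonneg (div_pos hs hr).le j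
  · rw [Q1_bet a _ _ hr hμ _ _ (n k) (by push_cast [Nat.cast_sub m1.le]; ring)]
    have h1 := h.eq k
    obtain ⟨j, hj⟩ : ∃ j, n (k + 1) = n k + j := ⟨n (k + 1) - n k, by omega⟩
    have hj2 : n (k + 1) - n k = j := by omega
    rw [hj2]
    have hB := hN
    rw [hj] at h1 hB ⊢
    exact Q1_Le _ _ _ _ (n k) j hs hr hB h1
  · intro j
    rw [Q1_bet a _ _ hr hμ _ _ (n (k + 2) + j) (by push_cast [Nat.cast_sub m2.le]; ring), hμ2]
    exact Q1_R _ _ _ _ (n (k + 2)) j ht hr hN2 (h.mx (k + 2) (n (k + 2) + j))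
  · have m3' : n (k + 2) < n (k + 3) := m3
    rw [Q1_bet a _ _ hr hμ _ _ (n (k + 3)) (by push_cast [Nat.cast_sub m2.le, Nat.cast_sub m3'.le]; ring), hμ2]
    have h1 : ‖a (n (k + 2))‖ * ρ (k + 2) ^ n (k + 2) = ‖a (n (k + 3))‖ * ρ (k + 2) ^ n (k + 3) := h.eq (k + 2)
    obtain ⟨j, hj⟩ : ∃ j, n (k + 3) = n (k + 2) + j := ⟨n (k + 3) - n (k + 2), by omega⟩
    have hj2 : n (k + 3) - n (k + 2) = j := by omega
    rw [hj2]
    rw [hj] at h1 ⊢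
    exact Q1_Re _ _ _ _ (n (k + 2)) j ht hr hN2 h1.symm

end Pool.Agent.LibCH71
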