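import Mathlib

/-! Q2 (SHORT, only Mathlib): the dichotomy of the gaps. PLAN. Negate the first alternative:
there is `K` with `D k ≤ D (k+1) → D (k+1) < D (k+2)` for all `k ≥ K`. If `D (k+1) < D k` for all
`k ≥ K`: impossible (a strictly decreasing sequence of naturals, `D (K+i) + i ≤ D K` by induction).
So `D k₀ ≤ D (k₀+1)` for some `k₀ ≥ K` and by induction `D k < D (k+1)` for all `k > k₀`. If the `s`
part failed for all large `k` (`s (k+1) > s k + ε`), then `s (k₁+i) ≥ s k₁ + i ε` by induction, against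
`s ≤ 1`, `s ≥ 0` (Archimedes). -/

set_option autoImplicit false

namespace Pool.Agent.LibCH71

theorem Q2 (D : ℕ → ℕ) (s : ℕ → ℝ) (h0 : ∀ k, 0 ≤ s k) (h1 : ∀ k, s k ≤ 1) (ε : ℝ) (hε : 0 < ε) :
    (∀ K, ∃ k, K ≤ k ∧ D k ≤ D (k + 1) ∧ D (k + 2) ≤ D (k + 1)) ∨
    (∀ K, ∃ k, K ≤ k ∧ D k < D (k + 1) ∧ D (k + 1) < D (k + 2) ∧ s (k + 1) ≤ s k + ε) := by
  by_cases hA : ∀ K, ∃ k, K ≤ k ∧ D k ≤ D (k + 1) ∧ D (k + 2) ≤ D (k + 1)
  · exact Or.inl hA
  right
  rw [not_forall] at hA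
  obtain ⟨K, hK⟩ := hA
  have hK' : ∀ k, K ≤ k → D k ≤ D (k + 1) → D (k + 1) < D (k + 2) := by
    intro k hk h
    by_contra hc
    exact hK ⟨k, hk, h, not_lt.mp hc⟩
  obtain ⟨k₀, hk₀, hle⟩ : ∃ k₀, K ≤ k₀ ∧ D k₀ ≤ D (k₀ + 1) := by
    by_contra hc
    have hd : ∀ k, K ≤ k → D (k + 1) < D k := by
      intro k hk
      by_contra h2
      exact hc ⟨k, hk, not_lt.mp h2⟩
    have hi : ∀ i, D (K + i) + i ≤ D K := by
      intro i
      induction i with
      | zero => simp
      | succ i ih =>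
        have h3 := hd (K + i) (Nat.le_add_right K i)
        have h4 : K + (i + 1) = K + i + 1 := by ring
        rw [h4]
        omega
    have h5 := hi (D K + 1)
    omega
  have hinc : ∀ k, k₀ < k → D k < D (k + 1) := by
    intro k hk
    obtain ⟨j, rfl⟩ := Nat.exists_eq_add_of_lt hk
    clear hk
    induction j with
    | zero => exact hK' k₀ hk₀ hle
    | succ j ih =>
      have h6 := hK' (k₀ + j + 1) (by omega) ih.le
      have h7 : k₀ + (j + 1) + 1 = k₀ + j + 1 + 1 := by ring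
      rw [h7]
      exact h6
  intro L
  by_contra hc
  have hs : ∀ k, L ≤ k → k₀ < k → s k + ε < s (k + 1) := by
    intro k hk hk2
    by_contra h8
    exact hc ⟨k, hk, hinc k hk2, hinc (k + 1) (by omega), not_lt.mp h8⟩
  have hgrow : ∀ i : ℕ, s (L + k₀ + 1) + i * ε ≤ s (L + k₀ + 1 + i) := by
    intro i
    induction i with
    | zero => simp
    | succ i ih =>
      have h9 := hs (L + k₀ + 1 + i) (by omega) (by omega)
      have h10 : L + k₀ + 1 + (i + 1) = L + k₀ + 1 + i + 1 := by ring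
      rw [h10]
      push_cast
      linarith
  obtain ⟨n, hn⟩ := exists_nat_gt (1 / ε)
  have h11 := hgrow n
  have h12 := h0 (L + k₀ + 1)
  have h13 := h1 (L + k₀ + 1 + n)
  have h14 : 1 < n * ε := by
    rw [div_lt_iff₀ hε] at hn
    exact hn
  linarith

end Pool.Agent.LibCH71
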