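import Pool.Agent.LibCH71.Defs

/-! RF (SHORT, only Mathlib): reflection `m ↦ d - m`. PLAN. `circ_reflect`: field by field; `left` of the
reflected sequence is `right` of the old one (`d - (-j) = d + j`), and so on; `PV`: for
`(u, d', A, B, C, S₁, S₂, S₃)` use the old `PV` with `ū = u⁻¹` (= `conj u`, norm 1), the same `d'`, and the
images of the `S_i` under `m ↦ d + d' - m`, `m ↦ d + 2d' - m`, `m ↦ d - m`:
`‖β(d-m) + u β(d-m+d')‖ = ‖β(d-m+d') + u⁻¹ β(d-m)‖` (multiply by `u⁻¹`), and the same for `EB`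
(`‖β(d-m) - u² β(d-m+2d')‖ = ‖β(d-m+2d') - u⁻² β(d-m)‖`). Sums over images: `Finset.sum_map` or
`Finset.sum_image` (injective). `EA_reflect`, `EB_reflect`: the same computation. -/

set_option autoImplicit false

namespace Pool.Agent.LibCH71

theorem EA_reflect (β : ℤ → ℂ) (u : ℂ) (hu : ‖u‖ = 1) (c d m : ℤ) :
    EA (fun m => β (c - m)) u⁻¹ d m = EA β u d (c + d - m) := by
  have hu0 : u ≠ 0 := by
    intro h
    rw [h, norm_zero] at hu
    exact zero_ne_one hu
  unfold EA
  have e1 : c - (m - d) = c + d - m := by ring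
  have e2 : c + d - m - d = c - m := by ring
  simp only [e1, e2]
  have e3 : β (c - m) + u⁻¹ * β (c + d - m) = u⁻¹ * (β (c + d - m) + u * β (c - m)) := by
    field_simp
    ring
  rw [e3, norm_mul, norm_inv, hu, inv_one, one_mul]

theorem EB_reflect (β : ℤ → ℂ) (u : ℂ) (hu : ‖u‖ = 1) (c d m : ℤ) :
    EB (fun m => β (c - m)) u⁻¹ d m = EB β u d (c + 2 * d - m) := by
  have hu0 : u ≠ 0 := by
    intro h
    rw [h, norm_zero] at hu
    exact zero_ne_one hu
  unfold EB
  have e1 : c - (m - 2 * d) = c + 2 * d - m := by ring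
  have e2 : c + 2 * d - m - 2 * d = c - m := by ring
  simp only [e1, e2]
  have e3 : β (c - m) - u⁻¹ ^ 2 * β (c + 2 * d - m)
      = -(u⁻¹ ^ 2) * (β (c + 2 * d - m) - u ^ 2 * β (c - m)) := by
    field_simp
    ring
  rw [e3, norm_mul, norm_neg, norm_pow, norm_inv, hu, inv_one, one_pow, one_mul]

private theorem sum_reflect (f : ℤ → ℝ) (c : ℤ) (S : Finset ℤ) :
    ∑ m ∈ S, f (c - m) = ∑ m ∈ S.image (fun m => c - m), f m := by
  rw [Finset.sum_image]
  intro a _ b _ hab
  have : c - a = c - b := hab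
  linarith

theorem circ_reflect (β : ℤ → ℂ) (d dl dr : ℕ) (tl tr X : ℝ) (h : Circ β d dl dr tl tr X) :
    Circ (fun m => β ((d : ℤ) - m)) d dr dl tr tl X := by
  refine
    { d_pos := h.d_pos
      dl_pos := h.dr_pos
      dr_pos := h.dl_pos
      tl0 := h.tr0
      tl1 := h.tr1
      tr0 := h.tl0
      tr1 := h.tl1
      b0 := ?_
      bd := ?_
      left := ?_
      leq := ?_
      right := ?_
      req := ?_
      pv := ?_ }
  · simpa using h.bd
  · simpa using h.b0
  · intro j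
    have := h.right j
    simpa [sub_neg_eq_add] using this
  · have := h.req
    simpa [sub_neg_eq_add] using this
  · intro j
    have := h.left j
    have e : (d : ℤ) - ((d : ℤ) + j) = -(j : ℤ) := by ring
    show ‖β ((d : ℤ) - ((d : ℤ) + j))‖ ≤ tl ^ j
    rw [e]
    exact this
  · have := h.leq
    have e : (d : ℤ) - ((d : ℤ) + dl) = -(dl : ℤ) := by ring
    show ‖β ((d : ℤ) - ((d : ℤ) + dl))‖ = tl ^ dl
    rw [e]
    exact this
  · intro u hu d' hd' A B C hA hB hC hABC S₁ S₂ S₃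
    have hui : ‖u⁻¹‖ = 1 := by rw [norm_inv, hu, inv_one]
    have key := h.pv u⁻¹ hui d' hd' A B C hA hB hC hABC
      (S₁.image (fun m => ((d : ℤ) + d') - m)) (S₂.image (fun m => ((d : ℤ) + 2 * d') - m))
      (S₃.image (fun m => (d : ℤ) - m))
    have s1 : ∑ m ∈ S₁, EA (fun m => β ((d : ℤ) - m)) u d' m
        = ∑ m ∈ S₁.image (fun m => ((d : ℤ) + d') - m), EA β u⁻¹ d' m := by
      rw [← sum_reflect (fun m => EA β u⁻¹ d' m)]
      refine Finset.sum_congr rfl fun m _ => ?_
      have := EA_reflect β u⁻¹ hui (d : ℤ) d' m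
      rw [inv_inv] at this
      exact this
    have s2 : ∑ m ∈ S₂, EB (fun m => β ((d : ℤ) - m)) u d' m
        = ∑ m ∈ S₂.image (fun m => ((d : ℤ) + 2 * d') - m), EB β u⁻¹ d' m := by
      rw [← sum_reflect (fun m => EB β u⁻¹ d' m)]
      refine Finset.sum_congr rfl fun m _ => ?_
      have := EB_reflect β u⁻¹ hui (d : ℤ) d' m
      rw [inv_inv] at this
      exact this
    have s3 : ∑ m ∈ S₃, ‖(fun m => β ((d : ℤ) - m)) m‖ ^ 2
        = ∑ m ∈ S₃.image (fun m => (d : ℤ) - m), ‖β m‖ ^ 2 := by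
      rw [← sum_reflect (fun m => ‖β m‖ ^ 2)]
    rw [s1, s2, s3]
    exact key

end Pool.Agent.LibCH71
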