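import Pool.Agent.LibCH71.R1
import Pool.Agent.LibCH71.C4

/-! U1 (SHORT), U2 (MEDIUM). PLAN. U1: `h.pv` with `A = B = 0`, `C = 1`, `S₃ = {0, d, -dl}`:
`1 + 1 + (tl^dl)² ≤ X` and `2 + 9/16 ≥ 25609/10000`. U2: `A = 3/10, B = 0, C = 4/10`, `u = β d/β 0`,
`S₁ = {d} ∪ {0,-d} ∪ {2d,3d} ∪ {d-dl, 2d-dl} ∪ {-dl, -dl-d}`,
`S₃ = {0,d} ∪ {-d,-2d} ∪ {2d,3d} ∪ {-dl} ∪ {d-dl, 2d-dl} ∪ {-dl-d, -dl-2d}`; all different (`omega`,
`0 < dl < d`). `EA(d) = ‖2 u β 0‖² = 4`. `C4` four times: `(w,p,q) = (w'_1, w'_2, w'_3)` for `q = d`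
(`EA_row`: `EA(0) = ‖w'_1+w'_2‖²`, `EA(-d) = ‖w'_2+w'_3‖²`, and `‖β(-d)‖ = ‖w'_2‖`, ...);
upwards `(w,p,q) = (w'_2, w'_1, w'_0)` for `q = 3d` (`EA(2d) = ‖w'_1+w'_2‖²`, `w'_2 = u² β d`); for the
class of `-dl`: down with `q = -dl`: `(w'_0,w'_1,w'_2)`; up with `q = 2d - dl`: `(w'_2, w'_1, w'_0)`.
Total: `X ≥ 12/10 + 8/10 + 2·12/61 + (4/10 + 2·12/61) x²` with `x = tl^dl ≥ 47/100`, that is `≥ 2.568`. -/

set_option autoImplicit false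

namespace Pool.Agent.LibCH71

theorem U1 (β : ℤ → ℂ) (d dl dr : ℕ) (tl tr X : ℝ) (h : Circ β d dl dr tl tr X)
    (hx : 3 / 4 ≤ tl ^ dl) : 25609 / 10000 ≤ X := by
  have hd := h.d_pos
  have hdl := h.dl_pos
  have key := h.pv 1 (by simp) (d : ℤ) (by exact_mod_cast hd.ne') 0 0 1 le_rfl le_rfl zero_le_one
    (by norm_num) ∅ ∅ {0, (d : ℤ), -(dl : ℤ)}
  have e3 : ∀ f : ℤ → ℝ, ∑ m ∈ ({0, (d : ℤ), -(dl : ℤ)} : Finset ℤ), f m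
      = f 0 + (f (d : ℤ) + f (-(dl : ℤ))) := by
    intro f
    rw [Finset.sum_insert, Finset.sum_insert, Finset.sum_singleton] <;>
      (simp only [Finset.mem_insert, Finset.mem_singleton]; omega)
  rw [e3, h.b0, h.bd, h.leq] at key
  nlinarith [key, hx]

theorem U2 (β : ℤ → ℂ) (d dl dr : ℕ) (tl tr X : ℝ) (h : Circ β d dl dr tl tr X)
    (hd : dl < d) (hx : 47 / 100 ≤ tl ^ dl) : 25609 / 10000 ≤ X := by
  have hd0 := h.d_pos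
  have hdl := h.dl_pos
  have hb0 : β 0 ≠ 0 := by
    intro h0
    have h1 := h.b0
    rw [h0, norm_zero] at h1
    exact zero_ne_one h1
  obtain ⟨u, hu⟩ : ∃ u : ℂ, u = β d / β 0 := ⟨_, rfl⟩
  have hun : ‖u‖ = 1 := by rw [hu, norm_div, h.b0, h.bd, div_one]
  have hub : u * β 0 = β d := by rw [hu, div_mul_cancel₀ _ hb0]
  have key := h.pv u hun (d : ℤ) (by exact_mod_cast hd0.ne') (3 / 10) 0 (4 / 10) (by norm_num)
    le_rfl (by norm_num) (by norm_num)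
    {(d : ℤ), 0, -(d : ℤ), 2 * (d : ℤ), 3 * (d : ℤ), (d : ℤ) - dl, 2 * (d : ℤ) - dl, -(dl : ℤ),
      -(dl : ℤ) - d} ∅
    {0, (d : ℤ), -(d : ℤ), -(2 * (d : ℤ)), 2 * (d : ℤ), 3 * (d : ℤ), -(dl : ℤ), (d : ℤ) - dl,
      2 * (d : ℤ) - dl, -(dl : ℤ) - d, -(dl : ℤ) - 2 * d}
  have e1 : ∀ f : ℤ → ℝ, ∑ m ∈ ({(d : ℤ), 0, -(d : ℤ), 2 * (d : ℤ), 3 * (d : ℤ), (d : ℤ) - dl,
      2 * (d : ℤ) - dl, -(dl : ℤ), -(dl : ℤ) - d} : Finset ℤ), f m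
      = f (d : ℤ) + (f 0 + (f (-(d : ℤ)) + (f (2 * (d : ℤ)) + (f (3 * (d : ℤ)) +
        (f ((d : ℤ) - dl) + (f (2 * (d : ℤ) - dl) + (f (-(dl : ℤ)) + f (-(dl : ℤ) - d)))))))) := by
    intro f
    rw [Finset.sum_insert, Finset.sum_insert, Finset.sum_insert, Finset.sum_insert,
      Finset.sum_insert, Finset.sum_insert, Finset.sum_insert, Finset.sum_insert,
      Finset.sum_singleton] <;>
      (simp only [Finset.mem_insert, Finset.mem_singleton]; omega)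
  have e3 : ∀ f : ℤ → ℝ, ∑ m ∈ ({0, (d : ℤ), -(d : ℤ), -(2 * (d : ℤ)), 2 * (d : ℤ), 3 * (d : ℤ),
      -(dl : ℤ), (d : ℤ) - dl, 2 * (d : ℤ) - dl, -(dl : ℤ) - d, -(dl : ℤ) - 2 * d} : Finset ℤ), f m
      = f 0 + (f (d : ℤ) + (f (-(d : ℤ)) + (f (-(2 * (d : ℤ))) + (f (2 * (d : ℤ)) +
        (f (3 * (d : ℤ)) + (f (-(dl : ℤ)) + (f ((d : ℤ) - dl) + (f (2 * (d : ℤ) - dl) +
        (f (-(dl : ℤ) - d) + f (-(dl : ℤ) - 2 * d)))))))))) := by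
    intro f
    rw [Finset.sum_insert, Finset.sum_insert, Finset.sum_insert, Finset.sum_insert,
      Finset.sum_insert, Finset.sum_insert, Finset.sum_insert, Finset.sum_insert,
      Finset.sum_insert, Finset.sum_insert, Finset.sum_singleton] <;>
      (simp only [Finset.mem_insert, Finset.mem_singleton]; omega)
  rw [e1, e3] at key
  have nrm : ∀ (j : ℕ) (z : ℂ), ‖u ^ j * z‖ = ‖z‖ := by
    intro j z
    rw [norm_mul, norm_pow, hun, one_pow, one_mul]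
  -- the row `d`
  have r0 : EA β u d d = 4 := by
    have h1 : β ((d : ℤ) - d) = β 0 := by rw [sub_self]
    rw [EA, h1, hub, ← two_mul, norm_mul, h.bd]
    norm_num
  -- class of `0`, downwards
  have c1 := C4 (u ^ 1 * β 0) (u ^ 2 * β (-(d : ℤ))) (u ^ 3 * β (-(2 * (d : ℤ))))
  have r1 : ‖u ^ 1 * β 0 + u ^ 2 * β (-(d : ℤ))‖ ^ 2 = EA β u d 0 := by
    have := EA_row β u hun (d : ℤ) (d : ℤ) 1
    have a1 : (d : ℤ) - ((1 : ℕ) : ℤ) * d = 0 := by push_cast; ring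
    have a2 : (d : ℤ) - ((1 + 1 : ℕ) : ℤ) * d = -(d : ℤ) := by push_cast; ring
    rw [a1, a2] at this
    exact this.symm
  have r2 : ‖u ^ 2 * β (-(d : ℤ)) + u ^ 3 * β (-(2 * (d : ℤ)))‖ ^ 2 = EA β u d (-(d : ℤ)) := by
    have := EA_row β u hun (d : ℤ) (d : ℤ) 2
    have a1 : (d : ℤ) - ((2 : ℕ) : ℤ) * d = -(d : ℤ) := by push_cast; ring
    have a2 : (d : ℤ) - ((2 + 1 : ℕ) : ℤ) * d = -(2 * (d : ℤ)) := by push_cast; ring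
    rw [a1, a2] at this
    exact this.symm
  rw [r1, r2, nrm, nrm, nrm, h.b0] at c1
  -- class of `0`, upwards
  have c2 := C4 (u ^ 2 * β (d : ℤ)) (u ^ 1 * β (2 * (d : ℤ))) (u ^ 0 * β (3 * (d : ℤ)))
  have r3 : ‖u ^ 2 * β (d : ℤ) + u ^ 1 * β (2 * (d : ℤ))‖ ^ 2 = EA β u d (2 * (d : ℤ)) := by
    have := EA_row β u hun (3 * (d : ℤ)) (d : ℤ) 1
    have a1 : 3 * (d : ℤ) - ((1 : ℕ) : ℤ) * d = 2 * (d : ℤ) := by push_cast; ring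
    have a2 : 3 * (d : ℤ) - ((1 + 1 : ℕ) : ℤ) * d = (d : ℤ) := by push_cast; ring
    rw [a1, a2] at this
    rw [this, add_comm]
  have r4 : ‖u ^ 1 * β (2 * (d : ℤ)) + u ^ 0 * β (3 * (d : ℤ))‖ ^ 2 = EA β u d (3 * (d : ℤ)) := by
    have := EA_row β u hun (3 * (d : ℤ)) (d : ℤ) 0
    have a1 : 3 * (d : ℤ) - ((0 : ℕ) : ℤ) * d = 3 * (d : ℤ) := by push_cast; ring
    have a2 : 3 * (d : ℤ) - ((0 + 1 : ℕ) : ℤ) * d = 2 * (d : ℤ) := by push_cast; ring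
    rw [a1, a2] at this
    rw [this, add_comm]
  rw [r3, r4, nrm, nrm, nrm, h.bd] at c2
  -- class of `-dl`, downwards
  have c3 := C4 (u ^ 0 * β (-(dl : ℤ))) (u ^ 1 * β (-(dl : ℤ) - d)) (u ^ 2 * β (-(dl : ℤ) - 2 * d))
  have r5 : ‖u ^ 0 * β (-(dl : ℤ)) + u ^ 1 * β (-(dl : ℤ) - d)‖ ^ 2 = EA β u d (-(dl : ℤ)) := by
    have := EA_row β u hun (-(dl : ℤ)) (d : ℤ) 0
    have a1 : -(dl : ℤ) - ((0 : ℕ) : ℤ) * d = -(dl : ℤ) := by push_cast; ring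
    have a2 : -(dl : ℤ) - ((0 + 1 : ℕ) : ℤ) * d = -(dl : ℤ) - d := by push_cast; ring
    rw [a1, a2] at this
    exact this.symm
  have r6 : ‖u ^ 1 * β (-(dl : ℤ) - d) + u ^ 2 * β (-(dl : ℤ) - 2 * d)‖ ^ 2
      = EA β u d (-(dl : ℤ) - d) := by
    have := EA_row β u hun (-(dl : ℤ)) (d : ℤ) 1
    have a1 : -(dl : ℤ) - ((1 : ℕ) : ℤ) * d = -(dl : ℤ) - d := by push_cast; ring
    have a2 : -(dl : ℤ) - ((1 + 1 : ℕ) : ℤ) * d = -(dl : ℤ) - 2 * d := by push_cast; ring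
    rw [a1, a2] at this
    exact this.symm
  rw [r5, r6, nrm, nrm, nrm, h.leq] at c3
  -- class of `-dl`, upwards
  have c4 := C4 (u ^ 2 * β (-(dl : ℤ))) (u ^ 1 * β ((d : ℤ) - dl)) (u ^ 0 * β (2 * (d : ℤ) - dl))
  have r7 : ‖u ^ 2 * β (-(dl : ℤ)) + u ^ 1 * β ((d : ℤ) - dl)‖ ^ 2 = EA β u d ((d : ℤ) - dl) := by
    have := EA_row β u hun (2 * (d : ℤ) - dl) (d : ℤ) 1
    have a1 : 2 * (d : ℤ) - dl - ((1 : ℕ) : ℤ) * d = (d : ℤ) - dl := by push_cast; ring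
    have a2 : 2 * (d : ℤ) - dl - ((1 + 1 : ℕ) : ℤ) * d = -(dl : ℤ) := by push_cast; ring
    rw [a1, a2] at this
    rw [this, add_comm]
  have r8 : ‖u ^ 1 * β ((d : ℤ) - dl) + u ^ 0 * β (2 * (d : ℤ) - dl)‖ ^ 2
      = EA β u d (2 * (d : ℤ) - dl) := by
    have := EA_row β u hun (2 * (d : ℤ) - dl) (d : ℤ) 0
    have a1 : 2 * (d : ℤ) - dl - ((0 : ℕ) : ℤ) * d = 2 * (d : ℤ) - dl := by push_cast; ring
    have a2 : 2 * (d : ℤ) - dl - ((0 + 1 : ℕ) : ℤ) * d = (d : ℤ) - dl := by push_cast; ring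
    rw [a1, a2] at this
    rw [this, add_comm]
  rw [r7, r8, nrm, nrm, nrm, h.leq] at c4
  rw [r0, h.b0, h.bd, h.leq] at key
  have hx2 : (2209 : ℝ) / 10000 ≤ (tl ^ dl) ^ 2 := by
    nlinarith [hx]
  simp only [Finset.sum_empty, mul_zero, add_zero] at key
  linarith [key, c1, c2, c3, c4, hx2]

end Pool.Agent.LibCH71
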