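import Pool.Agent.LibCH71.SE
import Pool.Agent.LibCH71.RF
import Pool.Agent.LibCH71.U12

/-! U3 : the case (a). -/

set_option autoImplicit false

namespace Pool.Agent.LibCH71

theorem U3core (β : ℤ → ℂ) (d dl dr : ℕ) (tl tr X : ℝ) (h : Circ β d dl dr tl tr X)
    (hl : SideOK β (β d / β 0) d)
    (hr : SideOK (fun m => β ((d : ℤ) - m)) (β d / β 0)⁻¹ d) : 25609 / 10000 ≤ X := by
  obtain ⟨S1, S2, hS1, hS2, hs⟩ := hl
  obtain ⟨T1, T2, hT1, hT2, ht⟩ := hr
  have hb0 : β 0 ≠ 0 := by
    intro h0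
    have := h.b0
    rw [h0, norm_zero] at this
    norm_num at this
  have hu : ‖β d / β 0‖ = 1 := by
    rw [norm_div, h.b0, h.bd, div_one]
  have hd : (d : ℤ) ≠ 0 := by
    have := h.d_pos
    omega
  have hdpos : (0 : ℤ) < d := by
    have := h.d_pos
    omega
  have e1 : ∑ m ∈ T1, EA (fun m => β ((d : ℤ) - m)) (β d / β 0)⁻¹ d m =
      ∑ m ∈ T1.image (fun m => (d : ℤ) + d - m), EA β (β d / β 0) d m := by
    rw [Finset.sum_image (by intro x _ y _ hxy; simp only at hxy; omega)]
    exact Finset.sum_congr rfl fun m _ => EA_reflect β _ hu d d m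
  have e2 : ∑ m ∈ T2, EB (fun m => β ((d : ℤ) - m)) (β d / β 0)⁻¹ d m =
      ∑ m ∈ T2.image (fun m => (d : ℤ) + 2 * d - m), EB β (β d / β 0) d m := by
    rw [Finset.sum_image (by intro x _ y _ hxy; simp only at hxy; omega)]
    exact Finset.sum_congr rfl fun m _ => EB_reflect β _ hu d d m
  rw [e1, e2] at ht
  have hEA : EA β (β d / β 0) d d = 4 := by
    unfold EA
    have : β d + β d / β 0 * β ((d : ℤ) - d) = 2 * β d := by
      rw [sub_self]
      field_simp
      ring
    rw [this, norm_mul, h.bd]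
    norm_num
  have dj1 : Disjoint S1 ({(d : ℤ)} : Finset ℤ) := by
    rw [Finset.disjoint_singleton_right]
    intro hm
    have := hS1 _ hm
    omega
  have dj2 : Disjoint (S1 ∪ {(d : ℤ)}) (T1.image (fun m => (d : ℤ) + d - m)) := by
    rw [Finset.disjoint_left]
    intro m hm hm'
    rw [Finset.mem_image] at hm'
    obtain ⟨k, hk, rfl⟩ := hm'
    have h1 := hT1 k hk
    rw [Finset.mem_union, Finset.mem_singleton] at hm
    rcases hm with hm | hm
    · have := hS1 _ hm
      omega
    · omega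
  have dj3 : Disjoint S2 (T2.image (fun m => (d : ℤ) + 2 * d - m)) := by
    rw [Finset.disjoint_left]
    intro m hm hm'
    rw [Finset.mem_image] at hm'
    obtain ⟨k, hk, rfl⟩ := hm'
    have h1 := hT2 k hk
    have := hS2 _ hm
    omega
  have key := h.pv (β d / β 0) hu d hd (31 / 100) (19 / 100) 0 (by norm_num) (by norm_num)
    le_rfl (by norm_num) ((S1 ∪ {(d : ℤ)}) ∪ T1.image (fun m => (d : ℤ) + d - m))
    (S2 ∪ T2.image (fun m => (d : ℤ) + 2 * d - m)) ∅
  rw [Finset.sum_union dj2, Finset.sum_union dj1, Finset.sum_union dj3, Finset.sum_singleton,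
    hEA] at key
  simp only [Finset.sum_empty, mul_zero, add_zero] at key
  linarith

private theorem left_side (β : ℤ → ℂ) (d dl dr : ℕ) (tl tr X : ℝ) (h : Circ β d dl dr tl tr X)
    (hl : dl ≤ d) : 25609 / 10000 ≤ X ∨ SideOK β (β d / β 0) d := by
  by_cases h1 : 3 / 4 ≤ tl ^ dl
  · exact Or.inl (U1 β d dl dr tl tr X h h1)
  · push Not at h1
    rcases hl.eq_or_lt with he | hlt
    · exact Or.inr (SE β d dl dr tl tr X h he h1.le)
    · by_cases h2 : 47 / 100 ≤ tl ^ dl
      · exact Or.inl (U2 β d dl dr tl tr X h hlt h2)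
      · push Not at h2
        exact Or.inr (SS β d dl dr tl tr X h hlt h2.le)

theorem U3 (β : ℤ → ℂ) (d dl dr : ℕ) (tl tr X : ℝ) (h : Circ β d dl dr tl tr X)
    (hl : dl ≤ d) (hr : dr ≤ d) : 25609 / 10000 ≤ X := by
  rcases left_side β d dl dr tl tr X h hl with h1 | h1
  · exact h1
  · have h' := circ_reflect β d dl dr tl tr X h
    rcases left_side _ d dr dl tr tl X h' hr with h2 | h2
    · exact h2
    · refine U3core β d dl dr tl tr X h h1 ?_
      have e : (fun m => β ((d : ℤ) - m)) d / (fun m => β ((d : ℤ) - m)) 0 = (β d / β 0)⁻¹ := by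
        simp only [sub_self, sub_zero, inv_div]
      rw [← e]
      exact h2

end Pool.Agent.LibCH71
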