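import Mathlib

/-! K1 : the quadratic forms are minimal at the corner of the box (Karush-Kuhn-Tucker). -/

set_option autoImplicit false

namespace Pool.Agent.LibCH71

/-- side E -/
theorem K1 (x v t s : ℝ) (hx : 0 ≤ x) (hx1 : x ≤ 3 / 4) (hv0 : 0 ≤ v) (hv : v ≤ x ^ 2)
    (ht0 : 0 ≤ t) (ht : t ≤ x ^ 3) (hs0 : 0 ≤ s) (hs : s ≤ x ^ 4) :
    (31/100*(1-x)^2+19/100*(1+x)^2+31/100*(x-x^2)^2+19/100*(1-x^2)^2+31/100*(x^2-x^3)^2+19/100*(x-x^3)^2+31/100*(x^3-x^4)^2+19/100*(x^2-x^4)^2) ≤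
    (31/100 + 19/100) * (1 + x ^ 2) - 2 * (31/100 - 19/100) * x + 31/100 * (x - v) ^ 2
      + 19/100 * (1 - v) ^ 2 + 31/100 * (v - t) ^ 2 + 19/100 * (x - t) ^ 2 + 31/100 * (t - s) ^ 2
      + 19/100 * (v - s) ^ 2 := by
  obtain ⟨a, rfl⟩ : ∃ a, v = x ^ 2 - a := ⟨x ^ 2 - v, by ring⟩
  obtain ⟨b, rfl⟩ : ∃ b, t = x ^ 3 - b := ⟨x ^ 3 - t, by ring⟩
  obtain ⟨c, rfl⟩ : ∃ c, s = x ^ 4 - c := ⟨x ^ 4 - s, by ring⟩
  have ha : 0 ≤ a := by linarith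
  have hb : 0 ≤ b := by linarith
  have hc : 0 ≤ c := by linarith
  have h1 : 0 ≤ 1 - x := by linarith
  have g1 : 0 ≤ 31/100 * (x * (1-x)^2) + 19/100 * ((1 - x) * (1 + x)) ^ 2 := by positivity
  have g2 : 0 ≤ 31/100 * (x^2 * (1-x)^2) + 19/100 * (x * ((1 - x) * (1 + x))) := by positivity
  have g3 : 0 ≤ 31/100 * (x^3 * (1-x)) + 19/100 * (x^2 * ((1 - x) * (1 + x))) := by positivity
  have p1 := mul_nonneg ha g1
  have p2 := mul_nonneg hb g2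
  have p3 := mul_nonneg hc g3
  nlinarith [p1, p2, p3, sq_nonneg a, sq_nonneg b, sq_nonneg c, sq_nonneg (a - b), sq_nonneg (b - c),
    sq_nonneg (a - c)]

/-- side S, lattice -/
theorem K2 (x u v t s : ℝ) (hx : 0 ≤ x) (hx1 : x ≤ 47 / 100) (hv0 : 0 ≤ v) (hv : v ≤ x ^ 2)
    (ht0 : 0 ≤ t) (ht : t ≤ x ^ 3) (hs0 : 0 ≤ s) (hs : s ≤ x ^ 4) :
    (1/2-(12/100+31/100*x^2+19/100*x^3)^2+31/100*(x^2)^2+19/100*(1-x^2)^2+31/100*(x^2-x^3)^2+19/100*(x^3)^2+31/100*(x^3-x^4)^2+19/100*(x^2-x^4)^2) ≤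
    (31/100 + 19/100) * (1 + u ^ 2) - 2 * (31/100 - 19/100) * u + 31/100 * (u - v) ^ 2
      + 19/100 * (1 - v) ^ 2 + 31/100 * (v - t) ^ 2 + 19/100 * (u - t) ^ 2 + 31/100 * (t - s) ^ 2
      + 19/100 * (v - s) ^ 2 := by
  obtain ⟨a, rfl⟩ : ∃ a, v = x ^ 2 - a := ⟨x ^ 2 - v, by ring⟩
  obtain ⟨b, rfl⟩ : ∃ b, t = x ^ 3 - b := ⟨x ^ 3 - t, by ring⟩
  obtain ⟨c, rfl⟩ : ∃ c, s = x ^ 4 - c := ⟨x ^ 4 - s, by ring⟩
  have ha : 0 ≤ a := by linarith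
  have hb : 0 ≤ b := by linarith
  have hc : 0 ≤ c := by linarith
  have h1 : 0 ≤ 1 - x := by linarith
  have h47 : 0 ≤ 47/100 - x := by linarith
  -- gradient in a : A K - A v + B (1-v) - A (v-t) - B (v-s) at the corner
  have g1 : 0 ≤ 31/100 * (12/100+31/100*x^2+19/100*x^3) - 31/100 * x^2 + 19/100 * (1 - x^2)
      - 31/100 * (x^2 - x^3) - 19/100 * (x^2 - x^4) := by
    have : x ^ 2 ≤ (47/100)^2 := by nlinarith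
    have h3 : 0 ≤ x ^ 3 := by positivity
    have h4 : 0 ≤ x ^ 4 := by positivity
    nlinarith
  have g2 : 0 ≤ 19/100 * (12/100+31/100*x^2+19/100*x^3) - 19/100 * x^3
      + 31/100 * (x^2 - x^3) - 31/100 * (x^3 - x^4) := by
    have h2 : x ^ 3 ≤ 47/100 * x ^ 2 := by nlinarith [sq_nonneg x]
    have h4 : 0 ≤ x ^ 4 := by positivity
    have h22 : x ^ 2 ≤ (47/100)^2 := by nlinarith
    nlinarith [sq_nonneg x]
  have g3 : 0 ≤ 31/100 * (x^3 * (1-x)) + 19/100 * (x^2 * ((1 - x) * (1 + x))) := by positivity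
  have p1 := mul_nonneg ha g1
  have p2 := mul_nonneg hb g2
  have p3 := mul_nonneg hc g3
  nlinarith [p1, p2, p3, sq_nonneg (u - (12/100+31/100*(x^2 - a)+19/100*(x^3 - b))),
    sq_nonneg a, sq_nonneg b, sq_nonneg c, sq_nonneg (a - b), sq_nonneg (b - c),
    sq_nonneg (a - c), mul_nonneg ha hb]

/-- side S, off the lattice -/
theorem K3 (x p q r : ℝ) (hx : 0 ≤ x) (hx1 : x ≤ 47 / 100) (hp0 : 0 ≤ p) (hp : p ≤ x ^ 2)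
    (hq0 : 0 ≤ q) (hq : q ≤ x ^ 3) (hr0 : 0 ≤ r) (hr : r ≤ x ^ 4) :
    (4278/10000*(x-x^2)^2+19/100*(x-x^3)^2+31/100*(x^2-x^3)^2+19/100*(x^2-x^4)^2) ≤
    4278/10000 * (x - p) ^ 2 + 19/100 * (x - q) ^ 2 + 31/100 * (p - q) ^ 2
      + 19/100 * (p - r) ^ 2 := by
  obtain ⟨a, rfl⟩ : ∃ a, p = x ^ 2 - a := ⟨x ^ 2 - p, by ring⟩
  obtain ⟨b, rfl⟩ : ∃ b, q = x ^ 3 - b := ⟨x ^ 3 - q, by ring⟩
  obtain ⟨c, rfl⟩ : ∃ c, r = x ^ 4 - c := ⟨x ^ 4 - r, by ring⟩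
  have ha : 0 ≤ a := by linarith
  have hb : 0 ≤ b := by linarith
  have hc : 0 ≤ c := by linarith
  have h1 : 0 ≤ 1 - x := by linarith
  have g1 : 0 ≤ 4278/10000 * (x - x^2) - 31/100 * (x^2 - x^3) - 19/100 * (x^2 - x^4) := by
    have : 4278/10000 * (x - x^2) - 31/100 * (x^2 - x^3) - 19/100 * (x^2 - x^4)
      = x * (1 - x) * (4278/10000 - 31/100 * x - 19/100 * (x + x^2)) := by ring
    rw [this]
    have h5 : 0 ≤ 4278/10000 - 31/100 * x - 19/100 * (x + x^2) := by nlinarith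
    positivity
  have g2 : 0 ≤ 31/100 * (x^2 * (1-x)) + 19/100 * (x * ((1 - x) * (1 + x))) := by positivity
  have g3 : 0 ≤ 19/100 * (x^2 * ((1 - x) * (1 + x))) := by positivity
  have p1 := mul_nonneg ha g1
  have p2 := mul_nonneg hb g2
  have p3 := mul_nonneg hc g3
  nlinarith [p1, p2, p3, sq_nonneg a, sq_nonneg b, sq_nonneg c, sq_nonneg (a - b), sq_nonneg (b - c),
    sq_nonneg (a - c)]

/-- case (b), lattice -/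
theorem K4 (x u v t s : ℝ) (hx : 0 ≤ x) (hx1 : x ≤ 471 / 1000) (hv0 : 0 ≤ v) (hv : v ≤ x ^ 2)
    (ht0 : 0 ≤ t) (ht : t ≤ x ^ 3) (hs0 : 0 ≤ s) (hs : s ≤ x ^ 4) :
    (45/100-(25/100+35/100*x^2+1/10*x^3)^2+35/100*(x^2)^2+1/10*(1-x^2)^2+1/10*(x^2)^2+35/100*(x^2-x^3)^2+1/10*(x^3)^2+1/10*(x^3)^2+35/100*(x^3-x^4)^2+1/10*(x^2-x^4)^2+1/10*(x^4)^2) ≤
    (35/100 + 1/10) * (1 + u ^ 2) - 2 * (35/100 - 1/10) * u + 35/100 * (u - v) ^ 2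
      + 1/10 * (1 - v) ^ 2 + 35/100 * (v - t) ^ 2 + 1/10 * (u - t) ^ 2 + 35/100 * (t - s) ^ 2
      + 1/10 * (v - s) ^ 2 + 1/10 * (u ^ 2 + v ^ 2 + t ^ 2 + s ^ 2) := by
  obtain ⟨a, rfl⟩ : ∃ a, v = x ^ 2 - a := ⟨x ^ 2 - v, by ring⟩
  obtain ⟨b, rfl⟩ : ∃ b, t = x ^ 3 - b := ⟨x ^ 3 - t, by ring⟩
  obtain ⟨c, rfl⟩ : ∃ c, s = x ^ 4 - c := ⟨x ^ 4 - s, by ring⟩
  have ha : 0 ≤ a := by linarith
  have hb : 0 ≤ b := by linarith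
  have hc : 0 ≤ c := by linarith
  have h1 : 0 ≤ 1 - x := by linarith
  have h22 : x ^ 2 ≤ (471/1000)^2 := by nlinarith
  have h3 : 0 ≤ x ^ 3 := by positivity
  have h4 : 0 ≤ x ^ 4 := by positivity
  have h32 : x ^ 3 ≤ 471/1000 * x ^ 2 := by nlinarith [sq_nonneg x]
  have h43 : x ^ 4 ≤ 471/1000 * x ^ 3 := by nlinarith [h3]
  -- gradient in a : A K - A v + B (1-v) - C v - A (v-t) - B (v-s)
  have g1 : 0 ≤ 35/100 * (25/100+35/100*x^2+1/10*x^3) - 35/100 * x^2 + 1/10 * (1 - x^2)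
      - 1/10 * x ^ 2 - 35/100 * (x^2 - x^3) - 1/10 * (x^2 - x^4) := by
    nlinarith
  have g2 : 0 ≤ 1/10 * (25/100+35/100*x^2+1/10*x^3) - 1/10 * x^3 - 1/10 * x ^ 3
      + 35/100 * (x^2 - x^3) - 35/100 * (x^3 - x^4) := by
    nlinarith [sq_nonneg x]
  have g3 : 0 ≤ 35/100 * (x^3 - x^4) + 1/10 * (x^2 - x^4) - 1/10 * x ^ 4 := by
    nlinarith [sq_nonneg x]
  have p1 := mul_nonneg ha g1
  have p2 := mul_nonneg hb g2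
  have p3 := mul_nonneg hc g3
  nlinarith [p1, p2, p3, sq_nonneg (u - (25/100+35/100*(x^2 - a)+1/10*(x^3 - b))),
    sq_nonneg a, sq_nonneg b, sq_nonneg c, sq_nonneg (a - b), sq_nonneg (b - c),
    sq_nonneg (a - c), mul_nonneg ha hb]

/-- case (b), off the lattice -/
theorem K5 (x p q : ℝ) (hx : 0 ≤ x) (hx1 : x ≤ 47 / 100) (hp0 : 0 ≤ p) (hp : p ≤ x ^ 2)
    (hq0 : 0 ≤ q) (hq : q ≤ x ^ 3) :
    ((1/10+2211/10865)*x^2-2*(245/4346)*x*x^2+375/4346*(x^2)^2+35/100*(x-x^2)^2+1/10*(x-x^3)^2+1/10*(x^2)^2+35/100*(x^2-x^3)^2+1/10*(x^3)^2) ≤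
    1/10 * x ^ 2 + 2211/10865 * x ^ 2 - 2 * (245/4346) * x * p + 375/4346 * p ^ 2
      + 35/100 * (x - p) ^ 2 + 1/10 * (x - q) ^ 2 + 1/10 * p ^ 2 + 35/100 * (p - q) ^ 2
      + 1/10 * q ^ 2 := by
  obtain ⟨a, rfl⟩ : ∃ a, p = x ^ 2 - a := ⟨x ^ 2 - p, by ring⟩
  obtain ⟨b, rfl⟩ : ∃ b, q = x ^ 3 - b := ⟨x ^ 3 - q, by ring⟩
  have ha : 0 ≤ a := by linarith
  have hb : 0 ≤ b := by linarith
  have h22 : x ^ 2 ≤ (47/100)^2 := by nlinarith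
  have h3 : 0 ≤ x ^ 3 := by positivity
  have hxx : x ^ 2 ≤ 47/100 * x := by nlinarith
  have h32 : x ^ 3 ≤ 47/100 * x ^ 2 := by nlinarith [sq_nonneg x]
  -- gradient in a : s01 x - s11 p + A (x-p) - C p - A (p-q)
  have g1 : 0 ≤ 245/4346 * x - 375/4346 * x ^ 2 + 35/100 * (x - x^2) - 1/10 * x ^ 2
      - 35/100 * (x^2 - x^3) := by
    nlinarith
  have g2 : 0 ≤ 1/10 * (x - x^3) + 35/100 * (x^2 - x^3) - 1/10 * x ^ 3 := by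
    nlinarith [sq_nonneg x]
  have p1 := mul_nonneg ha g1
  have p2 := mul_nonneg hb g2
  nlinarith [p1, p2, sq_nonneg a, sq_nonneg b, sq_nonneg (a - b)]

end Pool.Agent.LibCH71
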