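import Pool.Agent.LibCH71.R1
import Pool.Agent.LibCH71.C1
import Pool.Agent.LibCH71.C3
import Pool.Agent.LibCH71.K1
import Pool.Agent.LibCH71.N3
import Pool.Agent.LibCH71.U12

/-! U4 (MEDIUM, the longest row): the case (b): `dl < d`, `y = tr^d ≤ x + 1/1000`, `x = tl^dl`.
PLAN. If `x ≥ 47/100`: `U2`. Else weight `A = 35/100, B = C = 1/10`, `u = β d/β 0`.
Rows: centre `EA(d) = 4`, and `‖β 0‖² = ‖β d‖² = 1`: `4·35/100 + 2/10 = 16/10`.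
(L) left lattice: `S₁: {0,-d,-2d,-3d}`, `S₂: {d,0,-d,-2d}`, `S₃: {-d,-2d,-3d,-4d}`; as in `SE` (`q = d`):
`C1` (`A = 35/100, B = 1/10`), `K4` at `x`.
(R) right lattice: `S₁: {2d,3d,4d,5d}`, `S₂: {2d,3d,4d,5d}`, `S₃: {2d,3d,4d,5d}`: `q = 5d`,
`w'_j = u^j β(5d - jd)`: `w'_4 = u⁴ β d`, `w'_5 = u⁵ β 0 = w'_4`; `C1` with
`w0 = w'_4, w1 = w'_3, w2 = w'_2, w3 = w'_1, w4 = w'_0`: `EA(2d) = ‖w'_3 + w'_4‖²`, ...,
`EB(2d) = ‖w'_3 - w'_5‖² = ‖w1 - w0‖²`, `EB(3d) = ‖w'_2 - w'_4‖²`, ...; `‖β(d + jd)‖ ≤ tr^(jd) = y^j ≤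
(x+1/1000)^j`; `K4` at `x + 1/1000`.
(H) the class of `-dl`: `S₁: {3d-dl, 2d-dl, d-dl, -dl, -d-dl}`, `S₂: {3d-dl, 2d-dl, d-dl, -dl}`,
`S₃: {3d-dl, 2d-dl, d-dl, -dl, -d-dl, -2d-dl}`: `q = 3d - dl`, `w''_j = u^j β(3d - dl - jd)`:
`h3 = w''_0, h2 = w''_1, h1 = w''_2, h0 = w''_3, g1 = w''_4, g2 = w''_5`: `C3` (rows
`EA(3d-dl) = ‖h3+h2‖²`, `EA(2d-dl) = ‖h2+h1‖²`, `EA(d-dl) = ‖h1+h0‖²`, `EB(3d-dl) = ‖h3-h1‖²`,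
`EB(2d-dl) = ‖h2-h0‖²`, `EB(d-dl) = ‖h1-g1‖²`), `C0` for `EA(-dl) = ‖h0+g1‖²`, `EA(-d-dl) = ‖g1+g2‖²`,
`EB(-dl) = ‖h0-g2‖²`, and `‖h0‖² , ‖g1‖², ‖g2‖²`; `‖h0‖ = x`, `‖g1‖ ≤ x²`, `‖g2‖ ≤ x³`; `K5`.
All positions are different (`omega`, `0 < dl < d`). Sum up with `N3`. Suggestion: prove (L), (R), (H) as
three private lemmas about finite sums. -/

set_option autoImplicit false

namespace Pool.Agent.LibCH71

private noncomputable def U4w (β : ℤ → ℂ) (u : ℂ) (d q : ℤ) (j : ℕ) : ℂ := u ^ j * β (q - j * d)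

private theorem U4w_norm (β : ℤ → ℂ) (u : ℂ) (hu : ‖u‖ = 1) (d q : ℤ) (j : ℕ) :
    ‖U4w β u d q j‖ = ‖β (q - j * d)‖ := by
  unfold U4w
  rw [norm_mul, norm_pow, hu, one_pow, one_mul]

private theorem U4_EA (β : ℤ → ℂ) (u : ℂ) (hu : ‖u‖ = 1) (d q : ℤ) (j : ℕ) :
    EA β u d (q - j * d) = ‖U4w β u d q j + U4w β u d q (j + 1)‖ ^ 2 :=
  EA_row β u hu q d j

private theorem U4_EB (β : ℤ → ℂ) (u : ℂ) (hu : ‖u‖ = 1) (d q : ℤ) (j : ℕ) :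
    EB β u d (q - j * d) = ‖U4w β u d q j - U4w β u d q (j + 2)‖ ^ 2 :=
  EB_row β u hu q d j

private theorem U4_lat (x : ℝ) (w1 w2 w3 w4 w5 : ℂ) (hx : 0 ≤ x) (hx1 : x ≤ 471 / 1000)
    (h1 : ‖w1‖ = 1) (h3 : ‖w3‖ ≤ x ^ 2) (h4 : ‖w4‖ ≤ x ^ 3) (h5 : ‖w5‖ ≤ x ^ 4) :
    (45/100-(25/100+35/100*x^2+1/10*x^3)^2+35/100*(x^2)^2+1/10*(1-x^2)^2+1/10*(x^2)^2+35/100*(x^2-x^3)^2+1/10*(x^3)^2+1/10*(x^3)^2+35/100*(x^3-x^4)^2+1/10*(x^2-x^4)^2+1/10*(x^4)^2) ≤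
    35 / 100 * (‖w1 + w2‖ ^ 2 + ‖w2 + w3‖ ^ 2 + ‖w3 + w4‖ ^ 2 + ‖w4 + w5‖ ^ 2)
      + 1 / 10 * (‖w1 - w2‖ ^ 2 + ‖w1 - w3‖ ^ 2 + ‖w2 - w4‖ ^ 2 + ‖w3 - w5‖ ^ 2)
      + 1 / 10 * (‖w2‖ ^ 2 + ‖w3‖ ^ 2 + ‖w4‖ ^ 2 + ‖w5‖ ^ 2) := by
  have a1 := C1 w1 w2 w3 w4 w5 (35 / 100) (1 / 10) (by norm_num) (by norm_num) h1
  have a2 := K4 x ‖w2‖ ‖w3‖ ‖w4‖ ‖w5‖ hx hx1 (norm_nonneg _) h3 (norm_nonneg _) h4
    (norm_nonneg _) h5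
  linarith

private theorem U4_off (x : ℝ) (h3 h2 h1 h0 g1 g2 : ℂ) (hx : 0 ≤ x) (hx1 : x ≤ 47 / 100)
    (e0 : ‖h0‖ = x) (e1 : ‖g1‖ ≤ x ^ 2) (e2 : ‖g2‖ ≤ x ^ 3) :
    ((1/10+2211/10865)*x^2-2*(245/4346)*x*x^2+375/4346*(x^2)^2+35/100*(x-x^2)^2+1/10*(x-x^3)^2+1/10*(x^2)^2+35/100*(x^2-x^3)^2+1/10*(x^3)^2) ≤
    35 / 100 * (‖h3 + h2‖ ^ 2 + ‖h2 + h1‖ ^ 2 + ‖h1 + h0‖ ^ 2 + ‖h0 + g1‖ ^ 2 + ‖g1 + g2‖ ^ 2)
      + 1 / 10 * (‖h3 - h1‖ ^ 2 + ‖h2 - h0‖ ^ 2 + ‖h1 - g1‖ ^ 2 + ‖h0 - g2‖ ^ 2)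
      + 1 / 10 * (‖h3‖ ^ 2 + ‖h2‖ ^ 2 + ‖h1‖ ^ 2 + ‖h0‖ ^ 2 + ‖g1‖ ^ 2 + ‖g2‖ ^ 2) := by
  have a1 := C3 h3 h2 h1 h0 g1
  have a2 := K5 x ‖g1‖ ‖g2‖ hx hx1 (norm_nonneg _) e1 (norm_nonneg _) e2
  have a3 := (C0 h0 g1).1
  have a4 := (C0 g1 g2).1
  have a5 := (C0 h0 g2).2
  rw [e0] at a1 a3 a5 ⊢
  linarith

theorem U4 (β : ℤ → ℂ) (d dl dr : ℕ) (tl tr X : ℝ) (h : Circ β d dl dr tl tr X)
    (hd : dl < d) (hy : tr ^ d ≤ tl ^ dl + 1 / 1000) : 25609 / 10000 ≤ X := by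
  by_cases hx2 : 47 / 100 ≤ tl ^ dl
  · exact U2 β d dl dr tl tr X h hd hx2
  push Not at hx2
  obtain ⟨x, hx⟩ : ∃ x : ℝ, x = tl ^ dl := ⟨_, rfl⟩
  have htl0 := h.tl0
  have htl1 := h.tl1
  have htr0 := h.tr0
  have hx0 : 0 ≤ x := by rw [hx]; positivity
  have hx1 : x ≤ 47 / 100 := by rw [hx]; exact hx2.le
  have hdl := h.dl_pos
  rw [← hx] at hy
  have hb0 : β 0 ≠ 0 := by
    intro h0
    have := h.b0
    rw [h0, norm_zero] at this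
    exact zero_ne_one this
  obtain ⟨u, hu⟩ : ∃ u : ℂ, u = β d / β 0 := ⟨_, rfl⟩
  have hu1 : ‖u‖ = 1 := by rw [hu, norm_div, h.bd, h.b0, div_one]
  have hub : u * β 0 = β d := by rw [hu, div_mul_cancel₀ _ hb0]
  -- powers
  have hpl : ∀ (m j : ℕ), dl * j ≤ m → tl ^ m ≤ x ^ j := by
    intro m j hm
    rw [hx, ← pow_mul]
    exact pow_le_pow_of_le_one htl0 htl1 hm
  have hpr : ∀ j : ℕ, tr ^ (d * j) ≤ (x + 1 / 1000) ^ j := by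
    intro j
    rw [pow_mul]
    exact pow_le_pow_left₀ (by positivity) hy j
  -- the left lattice
  have bl : ∀ (q : ℤ) (j m i : ℕ), q - j * d = -(m : ℤ) → dl * i ≤ m →
      ‖U4w β u d q j‖ ≤ x ^ i := by
    intro q j m i h1 h2
    rw [U4w_norm β u hu1, h1]
    exact (h.left m).trans (hpl m i h2)
  have br : ∀ (j i : ℕ), (5 * d : ℤ) - j * d = d + ((d * i : ℕ) : ℤ) →
      ‖U4w β u d (5 * d) j‖ ≤ (x + 1 / 1000) ^ i := by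
    intro j i h1
    rw [U4w_norm β u hu1, h1]
    exact (h.right (d * i)).trans (hpr i)
  have w0 : U4w β u d d 0 = β d := by
    unfold U4w
    simp
  have w1 : U4w β u d d 1 = β d := by
    unfold U4w
    rw [pow_one, Nat.cast_one, one_mul, sub_self, hub]
  have w5 : U4w β u d (5 * d) 5 = U4w β u d (5 * d) 4 := by
    unfold U4w
    have e1 : (5 * d : ℤ) - ((5 : ℕ) : ℤ) * d = 0 := by push_cast; ring
    have e2 : (5 * d : ℤ) - ((4 : ℕ) : ℤ) * d = d := by push_cast; ring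
    rw [e1, e2, pow_succ, mul_assoc, hub]
  have dlm : ∀ i : ℕ, dl * i ≤ d * i := fun i => Nat.mul_le_mul_right i hd.le
  have hL := U4_lat x (U4w β u d d 1) (U4w β u d d 2) (U4w β u d d 3) (U4w β u d d 4)
    (U4w β u d d 5) hx0 (by linarith) (by rw [w1, h.bd])
    (bl d 3 (d * 2) 2 (by push_cast; ring) (dlm 2)) (bl d 4 (d * 3) 3 (by push_cast; ring) (dlm 3))
    (bl d 5 (d * 4) 4 (by push_cast; ring) (dlm 4))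
  have hR := U4_lat (x + 1 / 1000) (U4w β u d (5 * d) 4) (U4w β u d (5 * d) 3)
    (U4w β u d (5 * d) 2) (U4w β u d (5 * d) 1) (U4w β u d (5 * d) 0) (by linarith) (by linarith)
    (by
      have e2 : (5 * d : ℤ) - ((4 : ℕ) : ℤ) * d = d := by push_cast; ring
      rw [U4w_norm β u hu1, e2, h.bd])
    (br 2 2 (by push_cast; ring)) (br 1 3 (by push_cast; ring)) (br 0 4 (by push_cast; ring))
  have hH := U4_off x (U4w β u d (3 * d - dl) 0) (U4w β u d (3 * d - dl) 1)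
    (U4w β u d (3 * d - dl) 2) (U4w β u d (3 * d - dl) 3) (U4w β u d (3 * d - dl) 4)
    (U4w β u d (3 * d - dl) 5) hx0 hx1
    (by
      have e2 : (3 * d - dl : ℤ) - ((3 : ℕ) : ℤ) * d = -(dl : ℤ) := by push_cast; ring
      rw [U4w_norm β u hu1, e2, h.leq, hx])
    (bl (3 * d - dl) 4 (d + dl) 2 (by push_cast; ring) (by omega))
    (bl (3 * d - dl) 5 (2 * d + dl) 3 (by push_cast; ring) (by omega))
  -- the inequality `pv`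
  have hN := N3 x hx0 hx1
  have hpv := h.pv u hu1 d (by have := h.d_pos; omega) (35 / 100) (1 / 10) (1 / 10)
    (by norm_num) (by norm_num) (by norm_num) (by norm_num)
    [(d : ℤ) - ((0 : ℕ) : ℤ) * d, (d : ℤ) - ((1 : ℕ) : ℤ) * d, (d : ℤ) - ((2 : ℕ) : ℤ) * d,
      (d : ℤ) - ((3 : ℕ) : ℤ) * d, (d : ℤ) - ((4 : ℕ) : ℤ) * d,
      (5 * d : ℤ) - ((0 : ℕ) : ℤ) * d, (5 * d : ℤ) - ((1 : ℕ) : ℤ) * d,
      (5 * d : ℤ) - ((2 : ℕ) : ℤ) * d, (5 * d : ℤ) - ((3 : ℕ) : ℤ) * d,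
      (3 * d - dl : ℤ) - ((0 : ℕ) : ℤ) * d, (3 * d - dl : ℤ) - ((1 : ℕ) : ℤ) * d,
      (3 * d - dl : ℤ) - ((2 : ℕ) : ℤ) * d, (3 * d - dl : ℤ) - ((3 : ℕ) : ℤ) * d,
      (3 * d - dl : ℤ) - ((4 : ℕ) : ℤ) * d].toFinset
    [(d : ℤ) - ((0 : ℕ) : ℤ) * d, (d : ℤ) - ((1 : ℕ) : ℤ) * d, (d : ℤ) - ((2 : ℕ) : ℤ) * d,
      (d : ℤ) - ((3 : ℕ) : ℤ) * d,
      (5 * d : ℤ) - ((0 : ℕ) : ℤ) * d, (5 * d : ℤ) - ((1 : ℕ) : ℤ) * d,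
      (5 * d : ℤ) - ((2 : ℕ) : ℤ) * d, (5 * d : ℤ) - ((3 : ℕ) : ℤ) * d,
      (3 * d - dl : ℤ) - ((0 : ℕ) : ℤ) * d, (3 * d - dl : ℤ) - ((1 : ℕ) : ℤ) * d,
      (3 * d - dl : ℤ) - ((2 : ℕ) : ℤ) * d, (3 * d - dl : ℤ) - ((3 : ℕ) : ℤ) * d].toFinset
    [(d : ℤ) - ((0 : ℕ) : ℤ) * d, (d : ℤ) - ((1 : ℕ) : ℤ) * d, (d : ℤ) - ((2 : ℕ) : ℤ) * d,
      (d : ℤ) - ((3 : ℕ) : ℤ) * d, (d : ℤ) - ((4 : ℕ) : ℤ) * d, (d : ℤ) - ((5 : ℕ) : ℤ) * d,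
      (5 * d : ℤ) - ((0 : ℕ) : ℤ) * d, (5 * d : ℤ) - ((1 : ℕ) : ℤ) * d,
      (5 * d : ℤ) - ((2 : ℕ) : ℤ) * d, (5 * d : ℤ) - ((3 : ℕ) : ℤ) * d,
      (3 * d - dl : ℤ) - ((0 : ℕ) : ℤ) * d, (3 * d - dl : ℤ) - ((1 : ℕ) : ℤ) * d,
      (3 * d - dl : ℤ) - ((2 : ℕ) : ℤ) * d, (3 * d - dl : ℤ) - ((3 : ℕ) : ℤ) * d,
      (3 * d - dl : ℤ) - ((4 : ℕ) : ℤ) * d, (3 * d - dl : ℤ) - ((5 : ℕ) : ℤ) * d].toFinset
  have hdl' : (0 : ℤ) < dl := by exact_mod_cast hdl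
  have hd' : (dl : ℤ) < d := by exact_mod_cast hd
  rw [List.sum_toFinset _ (by
      simp only [List.nodup_cons, List.mem_cons, List.not_mem_nil, not_or, or_false,
        not_false_eq_true, List.nodup_nil, and_true]
      repeat' apply And.intro
      all_goals (push_cast; omega)),
    List.sum_toFinset _ (by
      simp only [List.nodup_cons, List.mem_cons, List.not_mem_nil, not_or, or_false,
        not_false_eq_true, List.nodup_nil, and_true]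
      repeat' apply And.intro
      all_goals (push_cast; omega)),
    List.sum_toFinset _ (by
      simp only [List.nodup_cons, List.mem_cons, List.not_mem_nil, not_or, or_false,
        not_false_eq_true, List.nodup_nil, and_true]
      repeat' apply And.intro
      all_goals (push_cast; omega))] at hpv
  simp only [List.map_cons, List.map_nil, List.sum_cons, List.sum_nil, U4_EA β u hu1,
    U4_EB β u hu1, ← U4w_norm β u hu1, Nat.reduceAdd, w5] at hpv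
  rw [w0, w1] at hpv
  have c1 : ‖β d + β d‖ ^ 2 = 4 := by
    have e1 : β d + β d = 2 * β d := by ring
    rw [e1, norm_mul, h.bd]
    norm_num
  rw [c1, h.bd] at hpv
  rw [w1] at hL
  rw [add_comm (U4w β u d (5 * d) 4) (U4w β u d (5 * d) 3),
    add_comm (U4w β u d (5 * d) 3) (U4w β u d (5 * d) 2),
    add_comm (U4w β u d (5 * d) 2) (U4w β u d (5 * d) 1),
    add_comm (U4w β u d (5 * d) 1) (U4w β u d (5 * d) 0),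
    norm_sub_rev (U4w β u d (5 * d) 4) (U4w β u d (5 * d) 3),
    norm_sub_rev (U4w β u d (5 * d) 4) (U4w β u d (5 * d) 2),
    norm_sub_rev (U4w β u d (5 * d) 3) (U4w β u d (5 * d) 1),
    norm_sub_rev (U4w β u d (5 * d) 2) (U4w β u d (5 * d) 0)] at hR
  linarith

end Pool.Agent.LibCH71
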