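import Pool.Agent.LibCH71.Defs

/-! V0 (SHORT, only Mathlib). PLAN. (i) if `a n = 0` for all `n ≥ N` then
`f z = ∑_{n<N} a n z^n` (`hasSum_sum_of_ne_finset_zero`, uniqueness of sums) is the value of the
polynomial `∑ C (a n) X^n`. (ii) the terms of a summable series tend to 0; take the norm. -/

set_option autoImplicit false

namespace Pool.Agent.LibCH71

open Filter Topology

theorem V0 (a : ℕ → ℂ) (f : ℂ → ℂ) (hf : ∀ z, HasSum (fun n => a n * z ^ n) (f z))
    (hp : ∀ P : Polynomial ℂ, ∃ z, f z ≠ P.eval z) (N : ℕ) : ∃ n, N ≤ n ∧ a n ≠ 0 := by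
  by_contra hcon
  push Not at hcon
  obtain ⟨z, hz⟩ := hp (∑ n ∈ Finset.range N, Polynomial.C (a n) * Polynomial.X ^ n)
  apply hz
  have h1 : HasSum (fun n => a n * z ^ n) (∑ n ∈ Finset.range N, a n * z ^ n) := by
    apply hasSum_sum_of_ne_finset_zero
    intro n hn
    rw [Finset.mem_range, not_lt] at hn
    rw [hcon n hn, zero_mul]
  rw [(hf z).unique h1, Polynomial.eval_finsetSum]
  apply Finset.sum_congr rfl
  intro n _
  rw [Polynomial.eval_mul, Polynomial.eval_C, Polynomial.eval_pow, Polynomial.eval_X]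

theorem V0b (a : ℕ → ℂ) (f : ℂ → ℂ) (hf : ∀ z, HasSum (fun n => a n * z ^ n) (f z))
    (r : ℝ) (hr : 0 ≤ r) : Tendsto (fun n => ‖a n‖ * r ^ n) atTop (𝓝 0) := by
  have h1 := (hf (r : ℂ)).summable.tendsto_atTop_zero.norm
  rw [norm_zero] at h1
  refine h1.congr fun n => ?_
  rw [norm_mul, norm_pow, Complex.norm_real, Real.norm_of_nonneg hr]

end Pool.Agent.LibCH71
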