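import Pool.Agent.LibCH71.V1

/-! V2 (MEDIUM): the Newton polygon. PLAN. `n 0 =` the first index with `a ≠ 0` (`Nat.find`), then
iterate `V1` (sequence in the subtype `{n // a n ≠ 0}`, `choose`). `rmono`: with `n' = n (k+1)`,
`n'' = n (k+2)`, the last clause of `V1` at `j = n''` gives `‖a n''‖ ρ_k^n'' < ‖a n'‖ ρ_k^n'`, and
`‖a n''‖ ρ_{k+1}^n'' = ‖a n'‖ ρ_{k+1}^n'`; if `ρ_{k+1} ≤ ρ_k` then
`‖a n''‖ ρ_k^(n''-n') ≥ ‖a n''‖ ρ_{k+1}^(n''-n') = ‖a n'‖`, contradiction. `mx` by induction on `k`: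
`j ≥ n k` by `V1`; for `j < n k`: `k = 0`: `a j = 0`; `k+1`: `‖a j‖ ρ_k^j ≤ ‖a (n k)‖ ρ_k^(n k) =
‖a (n (k+1))‖ ρ_k^(n (k+1))` and multiply by `(ρ_{k+1}/ρ_k)^(n (k+1)) ≥ (ρ_{k+1}/ρ_k)^j`.
`unb`: a monotone sequence which does not tend to `∞` is bounded (`tendsto_atTop_atTop_of_monotone` or
`tendsto_of_monotone`): if `ρ_k ≤ R` for all `k` then `‖a (n (k+1))‖ R^(n (k+1)) ≥ ‖a (n k)‖ R^(n k)`,
so these are `≥ ‖a (n 0)‖ R^(n 0) > 0`, against `hz R` along `n k → ∞` (`strictMono`). -/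

set_option autoImplicit false

namespace Pool.Agent.LibCH71

open Filter Topology

private theorem V2_div {x y ρ : ℝ} (hρ : 0 < ρ) (j d : ℕ) :
    x * ρ ^ j ≤ y * ρ ^ (j + d) ↔ x ≤ y * ρ ^ d := by
  have h : y * ρ ^ (j + d) = (y * ρ ^ d) * ρ ^ j := by rw [pow_add]; ring
  rw [h]
  exact mul_le_mul_iff_left₀ (pow_pos hρ j)

theorem V2 (a : ℕ → ℂ) (hi : ∀ N, ∃ n, N ≤ n ∧ a n ≠ 0)
    (hz : ∀ r : ℝ, 0 ≤ r → Tendsto (fun n => ‖a n‖ * r ^ n) atTop (𝓝 0)) :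
    ∃ (n : ℕ → ℕ) (ρ : ℕ → ℝ), NP a n ρ := by
  classical
  have hex : ∃ n, a n ≠ 0 := by
    obtain ⟨n, _, hn⟩ := hi 0
    exact ⟨n, hn⟩
  choose nx rx hx using fun x : {n // a n ≠ 0} => V1 a hi hz x.1 x.2
  obtain ⟨s, hs0, hs⟩ : ∃ s : ℕ → {n // a n ≠ 0}, s 0 = ⟨Nat.find hex, Nat.find_spec hex⟩ ∧
      ∀ k, s (k + 1) = ⟨nx (s k), (hx (s k)).2.2.1⟩ :=
    ⟨fun k => Nat.rec ⟨Nat.find hex, Nat.find_spec hex⟩ (fun _ x => ⟨nx x, (hx x).2.2.1⟩) k, rfl,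
      fun _ => rfl⟩
  obtain ⟨n, hn⟩ : ∃ n : ℕ → ℕ, ∀ k, n k = (s k).1 := ⟨_, fun _ => rfl⟩
  obtain ⟨ρ, hρ⟩ : ∃ ρ : ℕ → ℝ, ∀ k, ρ k = rx (s k) := ⟨_, fun _ => rfl⟩
  have hn1 : ∀ k, n (k + 1) = nx (s k) := fun k => by rw [hn, hs]
  have hmono : ∀ k, n k < n (k + 1) := fun k => by rw [hn, hn1]; exact (hx (s k)).1
  have hpos : ∀ k, 0 < ρ k := fun k => by rw [hρ]; exact (hx (s k)).2.1
  have hnz : ∀ k, a (n k) ≠ 0 := fun k => by rw [hn]; exact (s k).2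
  have heq : ∀ k, ‖a (n k)‖ * ρ k ^ n k = ‖a (n (k + 1))‖ * ρ k ^ n (k + 1) := fun k => by
    rw [hn1, hn, hρ]; exact (hx (s k)).2.2.2.1
  have hle : ∀ k j, n k < j → ‖a j‖ * ρ k ^ j ≤ ‖a (n k)‖ * ρ k ^ n k := fun k j hj => by
    rw [hn] at hj ⊢
    rw [hρ]; exact (hx (s k)).2.2.2.2.1 j hj
  have hlt : ∀ k j, n (k + 1) < j → ‖a j‖ * ρ k ^ j < ‖a (n (k + 1))‖ * ρ k ^ n (k + 1) :=
    fun k j hj => by
      rw [hn1] at hj ⊢
      rw [hρ]; exact (hx (s k)).2.2.2.2.2 j hj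
  have hd : ∀ k, ∃ d, n (k + 1) = n k + d := fun k => ⟨n (k + 1) - n k, by have := hmono k; omega⟩
  -- the norm at the vertex `k` in terms of the next one
  have hstep : ∀ k d, n (k + 1) = n k + d → ‖a (n k)‖ = ‖a (n (k + 1))‖ * ρ k ^ d := by
    intro k d h
    have h1 := heq k
    have h2 := (V2_div (x := ‖a (n k)‖) (y := ‖a (n (k + 1))‖) (hpos k) (n k) d).1
      (by rw [← h]; exact h1.le)
    have h3 : ‖a (n (k + 1))‖ * ρ k ^ d ≤ ‖a (n k)‖ := by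
      have h4 : (‖a (n (k + 1))‖ * ρ k ^ d) * ρ k ^ n k ≤ ‖a (n k)‖ * ρ k ^ n k := by
        rw [mul_assoc, ← pow_add, add_comm d, ← h]
        exact h1.ge
      exact le_of_mul_le_mul_right h4 (pow_pos (hpos k) _)
    exact le_antisymm h2 h3
  have hrm : ∀ k, ρ k < ρ (k + 1) := by
    intro k
    by_contra hcon
    push Not at hcon
    obtain ⟨d, hd1⟩ := hd (k + 1)
    have h1 := hlt k (n (k + 1 + 1)) (hmono (k + 1))
    have h2 := hstep (k + 1) d hd1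
    have h3 : ‖a (n (k + 1))‖ * ρ k ^ n (k + 1) ≤
        ‖a (n (k + 1 + 1))‖ * ρ k ^ (n (k + 1) + d) := by
      rw [V2_div (hpos k), h2]
      exact mul_le_mul_of_nonneg_left (pow_le_pow_left₀ (hpos (k + 1)).le hcon d) (norm_nonneg _)
    rw [← hd1] at h3
    linarith
  have hmx : ∀ k j, ‖a j‖ * ρ k ^ j ≤ ‖a (n k)‖ * ρ k ^ n k := by
    intro k
    induction k with
    | zero =>
      intro j
      rcases lt_trichotomy (n 0) j with h | h | h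
      · exact hle 0 j h
      · rw [h]
      · have h0 : n 0 = Nat.find hex := by rw [hn, hs0]
        have h1 : a j = 0 := by
          by_contra hne
          rw [h0] at h
          exact Nat.find_min hex h hne
        rw [h1, norm_zero, zero_mul]
        exact mul_nonneg (norm_nonneg _) (pow_nonneg (hpos 0).le _)
    | succ k ih =>
      intro j
      rcases lt_trichotomy (n (k + 1)) j with h | h | h
      · exact hle (k + 1) j h
      · rw [h]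
      · obtain ⟨d, hd1⟩ : ∃ d, n (k + 1) = j + d := ⟨n (k + 1) - j, by omega⟩
        have h1 := ih j
        rw [heq k, hd1, V2_div (hpos k), ← hd1] at h1
        have h2 : ‖a j‖ ≤ ‖a (n (k + 1))‖ * ρ (k + 1) ^ d :=
          h1.trans (mul_le_mul_of_nonneg_left (pow_le_pow_left₀ (hpos k).le (hrm k).le d)
            (norm_nonneg _))
        have h3 := (V2_div (x := ‖a j‖) (y := ‖a (n (k + 1))‖) (hpos (k + 1)) j d).2 h2
        rwa [← hd1] at h3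
  refine ⟨n, ρ, hmono, hpos, hrm, hnz, heq, hmx, ?_⟩
  refine tendsto_atTop_atTop_of_monotone (monotone_nat_of_le_succ fun k => (hrm k).le) ?_
  by_contra hcon
  push Not at hcon
  obtain ⟨R, hR⟩ := hcon
  have hR0 : 0 < R := (hpos 0).trans (hR 0)
  have hlow : ∀ k, ‖a (n 0)‖ * R ^ n 0 ≤ ‖a (n k)‖ * R ^ n k := by
    intro k
    induction k with
    | zero => exact le_rfl
    | succ k ih =>
      refine ih.trans ?_
      obtain ⟨d, hd1⟩ := hd k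
      have h1 : ‖a (n k)‖ ≤ ‖a (n (k + 1))‖ * R ^ d := by
        rw [hstep k d hd1]
        exact mul_le_mul_of_nonneg_left (pow_le_pow_left₀ (hpos k).le (hR k).le d) (norm_nonneg _)
      have h2 := (V2_div (x := ‖a (n k)‖) (y := ‖a (n (k + 1))‖) hR0 (n k) d).2 h1
      rwa [← hd1] at h2
  have ht : Tendsto (fun k => ‖a (n k)‖ * R ^ n k) atTop (𝓝 0) :=
    (hz R hR0.le).comp (strictMono_nat_of_lt_succ hmono).tendsto_atTop
  have h0 := ge_of_tendsto' ht hlow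
  have h1 : 0 < ‖a (n 0)‖ * R ^ n 0 := mul_pos (norm_pos_iff.2 (hnz 0)) (pow_pos hR0 _)
  linarith

end Pool.Agent.LibCH71
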