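import Pool.Agent.LibCH71.P4
import Pool.Agent.LibCH71.V0
import Pool.Agent.LibCH71.V2
import Pool.Agent.LibCH71.Q1
import Pool.Agent.LibCH71.Q2
import Pool.Agent.LibCH71.U3
import Pool.Agent.LibCH71.U4

/-! Fin : the theorem. `V0`, `V0b`, `V2` give `NP a n ρ`. Let `T` be given; there is `K` with
`ρ k ≥ T` for `k ≥ K`. `Q2` with `D k = n (k+1) - n k`, `s k = (ρ k/ρ (k+1))^(D k)`,
`ε = 1/1000`. -/

set_option autoImplicit false

namespace Pool.Agent.LibCH71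

open Filter

private theorem fin_ratio (μ M : ℝ) (hμ : 0 < μ) (hM : 0 ≤ M) (h : 25609 / 10000 ≤ (M / μ) ^ 2) :
    μ / M ≤ 6249 / 10000 := by
  have hq : 10000 / 6249 ≤ M / μ := by
    by_contra hc
    push Not at hc
    have h0 : 0 ≤ M / μ := by positivity
    have : (M / μ) ^ 2 ≤ (10000 / 6249) ^ 2 := by
      apply pow_le_pow_left₀ h0 hc.le
    norm_num at this
    norm_num at h
    linarith
  rw [le_div_iff₀ hμ] at hq
  have hMpos : 0 < M := lt_of_lt_of_le (by positivity) hq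
  rw [div_le_iff₀ hMpos]
  linarith

theorem main (a : ℕ → ℂ) (f : ℂ → ℂ) (hf : ∀ z, HasSum (fun n => a n * z ^ n) (f z))
    (hp : ∀ P : Polynomial ℂ, ∃ z, f z ≠ P.eval z) (T : ℝ) :
    ∃ r : ℝ, T ≤ r ∧ 0 < r ∧
      (⨆ n, ‖a n‖ * r ^ n) / (⨆ z : Metric.sphere (0 : ℂ) r, ‖f z‖) ≤ 6249 / 10000 := by
  obtain ⟨n, ρ, h⟩ := V2 a (V0 a f hf hp) (V0b a f hf)
  have hmono : Monotone ρ := monotone_nat_of_le_succ fun k => (h.rmono k).le
  -- the claim for one circle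
  have core : ∀ k : ℕ,
      (∀ X : ℝ, Circ (bet a (ρ (k + 1)) (‖a (n (k + 1))‖ * ρ (k + 1) ^ n (k + 1)) (n (k + 1)))
        (n (k + 2) - n (k + 1)) (n (k + 1) - n k) (n (k + 3) - n (k + 2))
        (ρ k / ρ (k + 1)) (ρ (k + 1) / ρ (k + 2)) X → 25609 / 10000 ≤ X) →
      (⨆ n, ‖a n‖ * ρ (k + 1) ^ n) / (⨆ z : Metric.sphere (0 : ℂ) (ρ (k + 1)), ‖f z‖)
        ≤ 6249 / 10000 := by
    intro k hX
    have hr : 0 < ρ (k + 1) := h.rpos (k + 1)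
    have hμ : 0 < ‖a (n (k + 1))‖ * ρ (k + 1) ^ n (k + 1) :=
      mul_pos (norm_pos_iff.2 (h.nz (k + 1))) (pow_pos hr _)
    have hsup : (⨆ n, ‖a n‖ * ρ (k + 1) ^ n) = ‖a (n (k + 1))‖ * ρ (k + 1) ^ n (k + 1) := by
      apply le_antisymm
      · exact ciSup_le fun j => h.mx (k + 1) j
      · refine le_ciSup (f := fun n => ‖a n‖ * ρ (k + 1) ^ n)
          ⟨‖a (n (k + 1))‖ * ρ (k + 1) ^ n (k + 1), ?_⟩ (n (k + 1))
        rintro _ ⟨j, rfl⟩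
        exact h.mx (k + 1) j
    have hcont := entire_continuous a f hf
    have hbdd : BddAbove (Set.range fun z : Metric.sphere (0 : ℂ) (ρ (k + 1)) => ‖f z‖) := by
      have h1 : IsCompact ((fun z : ℂ => ‖f z‖) '' Metric.sphere (0 : ℂ) (ρ (k + 1))) :=
        (isCompact_sphere _ _).image (hcont.norm)
      refine h1.bddAbove.mono ?_
      rintro _ ⟨z, rfl⟩
      exact ⟨z, z.2, rfl⟩
    have hM : ∀ z : ℂ, ‖z‖ = ρ (k + 1) →
        ‖f z‖ ≤ ⨆ z : Metric.sphere (0 : ℂ) (ρ (k + 1)), ‖f z‖ := by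
      intro z hz
      exact le_ciSup hbdd (⟨z, by simpa using hz⟩ : Metric.sphere (0 : ℂ) (ρ (k + 1)))
    have hM0 : 0 ≤ ⨆ z : Metric.sphere (0 : ℂ) (ρ (k + 1)), ‖f z‖ :=
      Real.iSup_nonneg fun z => norm_nonneg _
    have hP := P4 a f hf (ρ (k + 1)) (‖a (n (k + 1))‖ * ρ (k + 1) ^ n (k + 1))
      (⨆ z : Metric.sphere (0 : ℂ) (ρ (k + 1)), ‖f z‖) hr hμ hM (n (k + 1))
    have hC := Q1 a n ρ h k _ hP
    have h2 := hX _ hC
    rw [hsup]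
    exact fin_ratio _ _ hμ hM0 h2
  -- large radii
  obtain ⟨K, hK⟩ := (h.unb.eventually (eventually_ge_atTop T)).exists_forall_of_atTop
  have hs0 : ∀ k, 0 ≤ (ρ k / ρ (k + 1)) ^ (n (k + 1) - n k) := fun k =>
    pow_nonneg (div_nonneg (h.rpos k).le (h.rpos (k + 1)).le) _
  have hs1 : ∀ k, (ρ k / ρ (k + 1)) ^ (n (k + 1) - n k) ≤ 1 := fun k =>
    pow_le_one₀ (div_nonneg (h.rpos k).le (h.rpos (k + 1)).le)
      ((div_le_one (h.rpos (k + 1))).2 (h.rmono k).le)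
  rcases Q2 (fun k => n (k + 1) - n k) (fun k => (ρ k / ρ (k + 1)) ^ (n (k + 1) - n k)) hs0 hs1
    (1 / 1000) (by norm_num) with hA | hB
  · obtain ⟨k, hk, h1, h2⟩ := hA K
    refine ⟨ρ (k + 1), hK (k + 1) (by omega), h.rpos _, core k ?_⟩
    intro X hC
    exact U3 _ _ _ _ _ _ X hC h1 h2
  · obtain ⟨k, hk, h1, _, h3⟩ := hB K
    refine ⟨ρ (k + 1), hK (k + 1) (by omega), h.rpos _, core k ?_⟩
    intro X hC
    exact U4 _ _ _ _ _ _ X hC h1 h3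

end Pool.Agent.LibCH71
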