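import Pool.Agent.LibCH71.Defs

set_option autoImplicit false

namespace Pool.Agent.LibCH71

/-! N1 : the polynomial of the side E (Bernstein certificates) -/

private theorem N1a (x : ℝ) (h0 : 0 ≤ x) (h1 : x ≤ 29/100) :
    13209/20000 ≤ (31/100*(1-x)^2+19/100*(1+x)^2+31/100*(x-x^2)^2+19/100*(1-x^2)^2+31/100*(x^2-x^3)^2+19/100*(x-x^3)^2+31/100*(x^3-x^4)^2+19/100*(x^2-x^4)^2) := by
  have h2 : 0 ≤ x - (0) := by linarith
  have h3 : 0 ≤ (29/100) - x := by linarith
  have key : (31/100*(1-x)^2+19/100*(1+x)^2+31/100*(x-x^2)^2+19/100*(1-x^2)^2+31/100*(x^2-x^3)^2+19/100*(x-x^3)^2+31/100*(x^3-x^4)^2+19/100*(x^2-x^4)^2) - (13209/20000) =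
      (295500000000000/500246412961) * (x - (0)) ^ 0 * ((29/100) - x) ^ 8 +
      (1668000000000000/500246412961) * (x - (0)) ^ 1 * ((29/100) - x) ^ 7 +
      (3923420000000000/500246412961) * (x - (0)) ^ 2 * ((29/100) - x) ^ 6 +
      (4909308200000000/500246412961) * (x - (0)) ^ 3 * ((29/100) - x) ^ 5 +
      (3434092422000000/500246412961) * (x - (0)) ^ 4 * ((29/100) - x) ^ 4 +
      (1266970775620000/500246412961) * (x - (0)) ^ 5 * ((29/100) - x) ^ 3 +
      (194697535140300/500246412961) * (x - (0)) ^ 6 * ((29/100) - x) ^ 2 +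
      (5761939089442/500246412961) * (x - (0)) ^ 7 * ((29/100) - x) ^ 1 +
      (5162161551245/1000492825922) * (x - (0)) ^ 8 * ((29/100) - x) ^ 0 := by
    ring
  have pos : 0 ≤ (295500000000000/500246412961) * (x - (0)) ^ 0 * ((29/100) - x) ^ 8 +
      (1668000000000000/500246412961) * (x - (0)) ^ 1 * ((29/100) - x) ^ 7 +
      (3923420000000000/500246412961) * (x - (0)) ^ 2 * ((29/100) - x) ^ 6 +
      (4909308200000000/500246412961) * (x - (0)) ^ 3 * ((29/100) - x) ^ 5 +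
      (3434092422000000/500246412961) * (x - (0)) ^ 4 * ((29/100) - x) ^ 4 +
      (1266970775620000/500246412961) * (x - (0)) ^ 5 * ((29/100) - x) ^ 3 +
      (194697535140300/500246412961) * (x - (0)) ^ 6 * ((29/100) - x) ^ 2 +
      (5761939089442/500246412961) * (x - (0)) ^ 7 * ((29/100) - x) ^ 1 +
      (5162161551245/1000492825922) * (x - (0)) ^ 8 * ((29/100) - x) ^ 0 := by
    positivity
  linarith

private theorem N1b (x : ℝ) (h0 : 29/100 ≤ x) (h1 : x ≤ 3/4) :
    13209/20000 ≤ (31/100*(1-x)^2+19/100*(1+x)^2+31/100*(x-x^2)^2+19/100*(1-x^2)^2+31/100*(x^2-x^3)^2+19/100*(x-x^3)^2+31/100*(x^3-x^4)^2+19/100*(x^2-x^4)^2) := by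
  have h2 : 0 ≤ x - (29/100) := by linarith
  have h3 : 0 ≤ (3/4) - x := by linarith
  have key : (31/100*(1-x)^2+19/100*(1+x)^2+31/100*(x-x^2)^2+19/100*(1-x^2)^2+31/100*(x^2-x^3)^2+19/100*(x-x^3)^2+31/100*(x^3-x^4)^2+19/100*(x^2-x^4)^2) - (13209/20000) =
      (5162161551245/40095224463872) * (x - (29/100)) ^ 0 * ((3/4) - x) ^ 8 +
      (1383188865581/626487882248) * (x - (29/100)) ^ 1 * ((3/4) - x) ^ 7 +
      (403893803512125/10023806115968) * (x - (29/100)) ^ 2 * ((3/4) - x) ^ 6 +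
      (470182368801875/2505951528992) * (x - (29/100)) ^ 3 * ((3/4) - x) ^ 5 +
      (8050806082546875/20047612231936) * (x - (29/100)) ^ 4 * ((3/4) - x) ^ 4 +
      (580080320703125/1252975764496) * (x - (29/100)) ^ 5 * ((3/4) - x) ^ 3 +
      (2963536650390625/10023806115968) * (x - (29/100)) ^ 6 * ((3/4) - x) ^ 2 +
      (248411865234375/2505951528992) * (x - (29/100)) ^ 7 * ((3/4) - x) ^ 1 +
      (592153564453125/40095224463872) * (x - (29/100)) ^ 8 * ((3/4) - x) ^ 0 := by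
    ring
  have pos : 0 ≤ (5162161551245/40095224463872) * (x - (29/100)) ^ 0 * ((3/4) - x) ^ 8 +
      (1383188865581/626487882248) * (x - (29/100)) ^ 1 * ((3/4) - x) ^ 7 +
      (403893803512125/10023806115968) * (x - (29/100)) ^ 2 * ((3/4) - x) ^ 6 +
      (470182368801875/2505951528992) * (x - (29/100)) ^ 3 * ((3/4) - x) ^ 5 +
      (8050806082546875/20047612231936) * (x - (29/100)) ^ 4 * ((3/4) - x) ^ 4 +
      (580080320703125/1252975764496) * (x - (29/100)) ^ 5 * ((3/4) - x) ^ 3 +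
      (2963536650390625/10023806115968) * (x - (29/100)) ^ 6 * ((3/4) - x) ^ 2 +
      (248411865234375/2505951528992) * (x - (29/100)) ^ 7 * ((3/4) - x) ^ 1 +
      (592153564453125/40095224463872) * (x - (29/100)) ^ 8 * ((3/4) - x) ^ 0 := by
    positivity
  linarith

theorem N1 (x : ℝ) (h0 : 0 ≤ x) (h1 : x ≤ 3/4) :
    66045/100000 ≤ (31/100*(1-x)^2+19/100*(1+x)^2+31/100*(x-x^2)^2+19/100*(1-x^2)^2+31/100*(x^2-x^3)^2+19/100*(x-x^3)^2+31/100*(x^3-x^4)^2+19/100*(x^2-x^4)^2) := by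
  rcases le_total x (29/100) with h | h
  · exact le_trans (by norm_num) (N1a x h0 h)
  · exact le_trans (by norm_num) (N1b x h h1)

end Pool.Agent.LibCH71
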