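import Pool.Agent.LibCH71.Defs

set_option autoImplicit false

namespace Pool.Agent.LibCH71

/-! N2 : the polynomials of the side S -/

private theorem N2a (x : ℝ) (h0 : 0 ≤ x) (h1 : x ≤ 47/100) :
    13209/20000 ≤ ((1/2-(12/100+31/100*x^2+19/100*x^3)^2+31/100*(x^2)^2+19/100*(1-x^2)^2+31/100*(x^2-x^3)^2+19/100*(x^3)^2+31/100*(x^3-x^4)^2+19/100*(x^2-x^4)^2) + (4278/10000*(x-x^2)^2+19/100*(x-x^3)^2+31/100*(x^2-x^3)^2+19/100*(x^2-x^4)^2)) := by
  have h2 : 0 ≤ x - (0) := by linarith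
  have h3 : 0 ≤ (47/100) - x := by linarith
  have key : ((1/2-(12/100+31/100*x^2+19/100*x^3)^2+31/100*(x^2)^2+19/100*(1-x^2)^2+31/100*(x^2-x^3)^2+19/100*(x^3)^2+31/100*(x^3-x^4)^2+19/100*(x^2-x^4)^2) + (4278/10000*(x-x^2)^2+19/100*(x-x^3)^2+31/100*(x^2-x^3)^2+19/100*(x^2-x^4)^2)) - (13209/20000) =
      (151500000000000/23811286661761) * (x - (0)) ^ 0 * ((47/100) - x) ^ 8 +
      (1212000000000000/23811286661761) * (x - (0)) ^ 1 * ((47/100) - x) ^ 7 +
      (4602950600000000/23811286661761) * (x - (0)) ^ 2 * ((47/100) - x) ^ 6 +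
      (9714050724000000/23811286661761) * (x - (0)) ^ 3 * ((47/100) - x) ^ 5 +
      (12049377910770000/23811286661761) * (x - (0)) ^ 4 * ((47/100) - x) ^ 4 +
      (8868611752575400/23811286661761) * (x - (0)) ^ 5 * ((47/100) - x) ^ 3 +
      (3671210420681931/23811286661761) * (x - (0)) ^ 6 * ((47/100) - x) ^ 2 +
      (678136573248956/23811286661761) * (x - (0)) ^ 7 * ((47/100) - x) ^ 1 +
      (1418990616904009/2381128666176100) * (x - (0)) ^ 8 * ((47/100) - x) ^ 0 := by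
    ring
  have pos : 0 ≤ (151500000000000/23811286661761) * (x - (0)) ^ 0 * ((47/100) - x) ^ 8 +
      (1212000000000000/23811286661761) * (x - (0)) ^ 1 * ((47/100) - x) ^ 7 +
      (4602950600000000/23811286661761) * (x - (0)) ^ 2 * ((47/100) - x) ^ 6 +
      (9714050724000000/23811286661761) * (x - (0)) ^ 3 * ((47/100) - x) ^ 5 +
      (12049377910770000/23811286661761) * (x - (0)) ^ 4 * ((47/100) - x) ^ 4 +
      (8868611752575400/23811286661761) * (x - (0)) ^ 5 * ((47/100) - x) ^ 3 +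
      (3671210420681931/23811286661761) * (x - (0)) ^ 6 * ((47/100) - x) ^ 2 +
      (678136573248956/23811286661761) * (x - (0)) ^ 7 * ((47/100) - x) ^ 1 +
      (1418990616904009/2381128666176100) * (x - (0)) ^ 8 * ((47/100) - x) ^ 0 := by
    positivity
  linarith

theorem N2 (x : ℝ) (h0 : 0 ≤ x) (h1 : x ≤ 47/100) :
    66045/100000 ≤ (1/2-(12/100+31/100*x^2+19/100*x^3)^2+31/100*(x^2)^2+19/100*(1-x^2)^2+31/100*(x^2-x^3)^2+19/100*(x^3)^2+31/100*(x^3-x^4)^2+19/100*(x^2-x^4)^2) +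
      (4278/10000*(x-x^2)^2+19/100*(x-x^3)^2+31/100*(x^2-x^3)^2+19/100*(x^2-x^4)^2) :=
  le_trans (by norm_num) (N2a x h0 h1)

end Pool.Agent.LibCH71
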