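import Pool.Agent.LibCH71.Defs

/-! P1 (SHORT/MEDIUM, only Mathlib): Fourier coefficients of an entire function on a circle. PLAN.
(i) `f` is continuous: e.g. `f` is the sum of the power series; `Summable (‖a n‖ R^n)` for every `R`
(from `hf` at the point `R+1`: terms bounded, geometric comparison; or
`(hf (R:ℂ)).summable.norm` because summable = absolutely summable in `ℂ`), then
`continuous_iff_continuousAt` + `continuous_tsum` on balls, or
`HasFPowerSeriesOnBall ... ⊤` (`FormalMultilinearSeries.ofScalars`) -> `.continuousOn`.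
(ii) `∫ f(r e(x)) e(-mx) = ∑ a_n r^n ∫ e((n-m)x)`: interchange with
`intervalIntegral.hasSum_integral_of_summable_norm` (or `hasSum_integral_of_dominated_convergence`,
bound `‖a n‖ r^n`, summable); `∫_0^1 e(kx) = 0` for an integer `k ≠ 0`, `= 1` for `k = 0`
(`integral_exp_mul_complex`; see `K_11_orth` in `Pool/Agent/LibSM56C/K_11.lean`, copy it). -/

set_option autoImplicit false

namespace Pool.Agent.LibCH71

private theorem P1_sum (a : ℕ → ℂ) (f : ℂ → ℂ) (hf : ∀ z, HasSum (fun n => a n * z ^ n) (f z))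
    (R : ℝ) (hR : 0 ≤ R) : Summable fun n => ‖a n‖ * R ^ n := by
  have h := (hf (R : ℂ)).summable.norm
  refine h.congr (fun n => ?_)
  rw [norm_mul, norm_pow, Complex.norm_real, Real.norm_of_nonneg hR]

theorem entire_continuous (a : ℕ → ℂ) (f : ℂ → ℂ) (hf : ∀ z, HasSum (fun n => a n * z ^ n) (f z)) :
    Continuous f := by
  have hfe : f = fun z => ∑' n, a n * z ^ n := by
    funext z
    exact (hf z).tsum_eq.symm
  rw [continuous_iff_continuousAt]
  intro z₀
  have hR : (0 : ℝ) ≤ ‖z₀‖ + 1 := by positivity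
  have hon : ContinuousOn (fun z => ∑' n, a n * z ^ n) (Metric.ball (0 : ℂ) (‖z₀‖ + 1)) := by
    refine continuousOn_tsum (u := fun n => ‖a n‖ * (‖z₀‖ + 1) ^ n) (fun n => ?_)
      (P1_sum a f hf _ hR) (fun n z hz => ?_)
    · exact (continuous_const.mul (continuous_pow n)).continuousOn
    · rw [norm_mul, norm_pow]
      have h1 : ‖z‖ ≤ ‖z₀‖ + 1 := by
        have := mem_ball_zero_iff.mp hz
        exact this.le
      gcongr
  rw [hfe]
  refine hon.continuousAt (Metric.isOpen_ball.mem_nhds ?_)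
  rw [mem_ball_zero_iff]
  linarith

private theorem P1_orth (k : ℤ) :
    ∫ x in (0:ℝ)..1, ee (k * x) = if k = 0 then 1 else 0 := by
  unfold ee
  split_ifs with h
  · subst h
    simp
  · have hc : (2 * Real.pi * Complex.I * (k : ℂ)) ≠ 0 := by
      have h1 : (k : ℂ) ≠ 0 := Int.cast_ne_zero.mpr h
      have h2 : (Real.pi : ℂ) ≠ 0 := Complex.ofReal_ne_zero.mpr Real.pi_ne_zero
      have h3 : (2 : ℂ) ≠ 0 := two_ne_zero
      exact mul_ne_zero (mul_ne_zero (mul_ne_zero h3 h2) Complex.I_ne_zero) h1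
    have he : ∀ x : ℝ, Complex.exp (2 * Real.pi * Complex.I * ((k * x : ℝ) : ℂ)) =
        Complex.exp ((2 * Real.pi * Complex.I * (k : ℂ)) * (x : ℂ)) := by
      intro x
      congr 1
      push_cast
      ring
    simp_rw [he]
    rw [integral_exp_mul_complex hc]
    have h1 : Complex.exp ((2 * Real.pi * Complex.I * (k : ℂ)) * ((1 : ℝ) : ℂ)) = 1 := by
      rw [← Complex.exp_int_mul_two_pi_mul_I k]
      congr 1
      push_cast
      ring
    rw [h1]
    simp

private theorem P1_ee_mul (x y : ℝ) : ee x * ee y = ee (x + y) := by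
  unfold ee
  rw [← Complex.exp_add]
  congr 1
  push_cast
  ring

private theorem P1_ee_pow (x : ℝ) (n : ℕ) : ee x ^ n = ee (n * x) := by
  unfold ee
  rw [← Complex.exp_nat_mul]
  congr 1
  push_cast
  ring

private theorem P1_norm (x : ℝ) : ‖ee x‖ = 1 := by
  unfold ee
  have h : 2 * Real.pi * Complex.I * (x : ℂ) = ((2 * Real.pi * x : ℝ) : ℂ) * Complex.I := by
    push_cast
    ring
  rw [h, Complex.norm_exp_ofReal_mul_I]

private theorem P1_cont : Continuous ee := by
  unfold ee
  fun_prop

theorem P1 (a : ℕ → ℂ) (f : ℂ → ℂ) (hf : ∀ z, HasSum (fun n => a n * z ^ n) (f z))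
    (r : ℝ) (hr : 0 < r) (m : ℤ) :
    ∫ x in (0:ℝ)..1, f (r * ee x) * ee (-(m * x)) =
      if 0 ≤ m then a m.toNat * (r : ℂ) ^ m.toNat else 0 := by
  have hsum : HasSum (fun n : ℕ => ∫ x in (0:ℝ)..1, (a n * (r * ee x) ^ n) * ee (-(m * x)))
      (∫ x in (0:ℝ)..1, f (r * ee x) * ee (-(m * x))) := by
    refine intervalIntegral.hasSum_integral_of_dominated_convergence
      (fun n _ => ‖a n‖ * r ^ n) (fun n => ?_) (fun n => ?_) ?_ ?_ ?_
    · apply Continuous.aestronglyMeasurable
      have h1 : Continuous fun x : ℝ => ee (-(m * x)) := P1_cont.comp (by fun_prop)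
      exact (continuous_const.mul ((continuous_const.mul P1_cont).pow n)).mul h1
    · refine Filter.Eventually.of_forall (fun x _ => ?_)
      rw [norm_mul, norm_mul, norm_pow, norm_mul, P1_norm, P1_norm, Complex.norm_real,
        Real.norm_of_nonneg hr.le, mul_one, mul_one]
    · exact Filter.Eventually.of_forall (fun x _ => P1_sum a f hf r hr.le)
    · exact intervalIntegrable_const
    · exact Filter.Eventually.of_forall (fun x _ => (hf (r * ee x)).mul_right _)
  have hterm : ∀ n : ℕ, ∫ x in (0:ℝ)..1, (a n * (r * ee x) ^ n) * ee (-(m * x)) =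
      a n * (r : ℂ) ^ n * (if (n : ℤ) - m = 0 then 1 else 0) := by
    intro n
    rw [← P1_orth, ← intervalIntegral.integral_const_mul]
    refine intervalIntegral.integral_congr (fun x _ => ?_)
    show (a n * (r * ee x) ^ n) * ee (-(m * x)) = a n * (r : ℂ) ^ n * ee ((((n : ℤ) - m : ℤ) : ℝ) * x)
    rw [mul_pow, P1_ee_pow]
    have h1 : ee ((((n : ℤ) - m : ℤ) : ℝ) * x) = ee (n * x) * ee (-(m * x)) := by
      rw [P1_ee_mul]
      congr 1
      push_cast
      ring
    rw [h1]
    ring
  simp_rw [hterm] at hsum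
  refine hsum.unique ?_
  split_ifs with h
  · have h2 := hasSum_single (f := fun n : ℕ => a n * (r : ℂ) ^ n * (if (n : ℤ) - m = 0 then 1 else 0))
      m.toNat (fun n hn => by
        have h3 : (n : ℤ) - m ≠ 0 := by omega
        simp only [h3, if_false, mul_zero])
    have h4 : ((m.toNat : ℕ) : ℤ) - m = 0 := by omega
    simpa only [h4, if_true, mul_one] using h2
  · have h2 : (fun n : ℕ => a n * (r : ℂ) ^ n * (if (n : ℤ) - m = 0 then 1 else 0)) = fun _ => 0 := by
      funext n
      have h3 : (n : ℤ) - m ≠ 0 := by omega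
      simp only [h3, if_false, mul_zero]
    rw [h2]
    exact hasSum_zero

end Pool.Agent.LibCH71
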