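import Pool.Agent.LibCH71.P2

/-! P3 (MEDIUM, only Mathlib + P2): Parseval with weights. PLAN. Put `c m = ∫ F e(-mx)`,
`G₁ = F (1 + u e(dx))`, `G₂ = F (1 - u² e(2dx))`, `G₃ = F`. The coefficients of `G₁` are
`c m + u c (m-d)` (because `e(dx) e(-mx) = e(-(m-d)x)`, `ee_add`), of `G₂` `c m - u² c (m-2d)`.
`bessel` for `G₁, S₁`, `G₂, S₂`, `G₃, S₃`; multiply by `A, B, C` and add:
LHS `≤ ∫ ‖F‖² (A ‖1+u e(dx)‖² + B ‖1-u² e(2dx)‖² + C) ≤ M² ∫ (…) = M² (2A+2B+C) = M²`;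
`∫ ‖1 + w e(kx)‖² = 1 + ‖w‖²` for an integer `k ≠ 0` (the cross term is `2 Re (w ∫ e(kx)) = 0`,
`ee_orth` with `M = k`, `N = 0`). -/

set_option autoImplicit false

namespace Pool.Agent.LibCH71

open MeasureTheory Set Filter Topology Complex
open scoped ENNReal ComplexConjugate

private theorem P3_coef (F : ℝ → ℂ) (hF : Continuous F) (w : ℂ) (k m : ℤ) :
    ∫ x in (0:ℝ)..1, (F x * (1 + w * ee (k * x))) * ee (-(m * x)) =
      (∫ x in (0:ℝ)..1, F x * ee (-(m * x))) +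
        w * ∫ x in (0:ℝ)..1, F x * ee (-(((m - k : ℤ) : ℝ) * x)) := by
  have h1 : ∀ x : ℝ, (F x * (1 + w * ee (k * x))) * ee (-(m * x)) =
      F x * ee (-(m * x)) + w * (F x * ee (-(((m - k : ℤ) : ℝ) * x))) := by
    intro x
    have h2 : -(((m - k : ℤ) : ℝ) * x) = k * x + -(m * x) := by
      push_cast
      ring
    rw [h2, ee_add]
    ring
  simp only [h1]
  rw [intervalIntegral.integral_add, intervalIntegral.integral_const_mul]
  · exact (hF.mul (ee_cont' m)).intervalIntegrable _ _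
  · exact (continuous_const.mul (hF.mul (ee_cont' (m - k)))).intervalIntegrable _ _

private theorem P3_mean (w : ℂ) (k : ℤ) (hk : k ≠ 0) :
    ∫ x in (0:ℝ)..1, ‖1 + w * ee (k * x)‖ ^ 2 = 1 + ‖w‖ ^ 2 := by
  have hcz : Continuous fun x : ℝ => w * ee (k * x) := continuous_const.mul (ee_cont k)
  have h1 : ∀ x : ℝ, ‖1 + w * ee (k * x)‖ ^ 2 = (1 + ‖w‖ ^ 2) + 2 * (w * ee (k * x)).re := by
    intro x
    have h2 : ‖w * ee (k * x)‖ = ‖w‖ := by rw [norm_mul, norm_ee, mul_one]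
    rw [← Complex.normSq_eq_norm_sq, Complex.normSq_add, Complex.normSq_one,
      Complex.normSq_eq_norm_sq, h2, one_mul, Complex.conj_re]
  have h0 : ∫ x in (0:ℝ)..1, w * ee (k * x) = 0 := by
    have h3 := ee_orth k 0
    rw [if_neg hk] at h3
    have h4 : ∀ x : ℝ, ee (k * x) * ee (-(((0 : ℤ) : ℝ) * x)) = ee (k * x) := by
      intro x
      rw [← ee_add]
      congr 1
      push_cast
      ring
    simp only [h4] at h3
    rw [intervalIntegral.integral_const_mul, h3, mul_zero]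
  have hre : ∫ x in (0:ℝ)..1, (w * ee (k * x)).re = (∫ x in (0:ℝ)..1, w * ee (k * x)).re :=
    Complex.reCLM.intervalIntegral_comp_comm (hcz.intervalIntegrable (μ := volume) 0 1)
  simp only [h1]
  rw [intervalIntegral.integral_add, intervalIntegral.integral_const,
    intervalIntegral.integral_const_mul, hre, h0]
  · simp
  · exact continuous_const.intervalIntegrable _ _
  · exact (continuous_const.mul (Complex.continuous_re.comp hcz)).intervalIntegrable _ _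

private theorem P3_part (F : ℝ → ℂ) (hF : Continuous F) (M : ℝ) (hM : ∀ x, ‖F x‖ ≤ M)
    (c : ℤ → ℂ) (hc : ∀ m, c m = ∫ x in (0:ℝ)..1, F x * ee (-(m * x)))
    (w : ℂ) (k : ℤ) (hk : k ≠ 0) (S : Finset ℤ) :
    ∑ m ∈ S, ‖c m + w * c (m - k)‖ ^ 2 ≤ M ^ 2 * (1 + ‖w‖ ^ 2) := by
  have hG : Continuous fun x : ℝ => F x * (1 + w * ee (k * x)) :=
    hF.mul (continuous_const.add (continuous_const.mul (ee_cont k)))
  have h1 := bessel (fun x => F x * (1 + w * ee (k * x))) hG S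
  have h2 : ∀ m : ℤ, ∫ x in (0:ℝ)..1, (F x * (1 + w * ee (k * x))) * ee (-(m * x)) =
      c m + w * c (m - k) := by
    intro m
    rw [P3_coef F hF w k m, hc m, hc (m - k)]
  simp only [h2] at h1
  refine h1.trans ?_
  have h3 : ∫ x in (0:ℝ)..1, ‖F x * (1 + w * ee (k * x))‖ ^ 2 ≤
      ∫ x in (0:ℝ)..1, M ^ 2 * ‖1 + w * ee (k * x)‖ ^ 2 := by
    apply intervalIntegral.integral_mono (by norm_num)
    · exact (hG.norm.pow 2).intervalIntegrable _ _
    · exact (continuous_const.mul ((continuous_const.add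
        (continuous_const.mul (ee_cont k))).norm.pow 2)).intervalIntegrable _ _
    · intro x
      show ‖F x * (1 + w * ee (k * x))‖ ^ 2 ≤ M ^ 2 * ‖1 + w * ee (k * x)‖ ^ 2
      rw [norm_mul, mul_pow]
      exact mul_le_mul_of_nonneg_right (pow_le_pow_left₀ (norm_nonneg _) (hM x) 2) (sq_nonneg _)
  rw [intervalIntegral.integral_const_mul, P3_mean w k hk] at h3
  exact h3

private theorem P3_part0 (F : ℝ → ℂ) (hF : Continuous F) (M : ℝ) (hM : ∀ x, ‖F x‖ ≤ M)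
    (c : ℤ → ℂ) (hc : ∀ m, c m = ∫ x in (0:ℝ)..1, F x * ee (-(m * x))) (S : Finset ℤ) :
    ∑ m ∈ S, ‖c m‖ ^ 2 ≤ M ^ 2 := by
  have h1 := P3_part F hF M hM c hc 0 1 one_ne_zero S
  simpa using h1

theorem P3 (F : ℝ → ℂ) (hF : Continuous F) (M : ℝ) (hM : ∀ x, ‖F x‖ ≤ M)
    (c : ℤ → ℂ) (hc : ∀ m, c m = ∫ x in (0:ℝ)..1, F x * ee (-(m * x))) :
    PV c (M ^ 2) := by
  intro u hu d hd A B C hA hB hC hsum S₁ S₂ S₃
  have h1 := P3_part F hF M hM c hc u d hd S₁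
  have h2 := P3_part F hF M hM c hc (-u ^ 2) (2 * d) (mul_ne_zero two_ne_zero hd) S₂
  have h3 := P3_part0 F hF M hM c hc S₃
  have e1 : ∑ m ∈ S₁, EA c u d m = ∑ m ∈ S₁, ‖c m + u * c (m - d)‖ ^ 2 := rfl
  have e2 : ∑ m ∈ S₂, EB c u d m = ∑ m ∈ S₂, ‖c m + -u ^ 2 * c (m - 2 * d)‖ ^ 2 := by
    refine Finset.sum_congr rfl fun m _ => ?_
    rw [EB, neg_mul, ← sub_eq_add_neg]
  rw [hu] at h1
  rw [norm_neg, norm_pow, hu] at h2
  rw [e1, e2]
  have a1 := mul_le_mul_of_nonneg_left h1 hA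
  have a2 := mul_le_mul_of_nonneg_left h2 hB
  have a3 := mul_le_mul_of_nonneg_left h3 hC
  have h4 : M ^ 2 = A * (M ^ 2 * (1 + 1 ^ 2)) + B * (M ^ 2 * (1 + (1 ^ 2) ^ 2)) + C * M ^ 2 := by
    have : C = 1 - 2 * A - 2 * B := by linarith
    rw [this]
    ring
  rw [h4]
  linarith

end Pool.Agent.LibCH71
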