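import Pool.Agent.LibCH71.P1
import Pool.Agent.LibCH71.P3

/-! P4 (SHORT): the Parseval property of the normalised coefficients. PLAN. `P3` with
`F x = f (r e(x)) / μ * e(-(n x))` (norm `≤ M/μ` as `‖r e(x)‖ = r`, `norm_ee`), whose coefficients are
`∫ f(r e(x)) e(-((n+m)x)) / μ = bet a r μ n m` by `P1` (`ee_add`); continuity from
`entire_continuous`. -/

set_option autoImplicit false

namespace Pool.Agent.LibCH71

theorem P4 (a : ℕ → ℂ) (f : ℂ → ℂ) (hf : ∀ z, HasSum (fun n => a n * z ^ n) (f z))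
    (r μ M : ℝ) (hr : 0 < r) (hμ : 0 < μ) (hM : ∀ z : ℂ, ‖z‖ = r → ‖f z‖ ≤ M) (n : ℕ) :
    PV (bet a r μ n) ((M / μ) ^ 2) := by
  have hfc := entire_continuous a f hf
  have hee : Continuous ee := by
    unfold ee
    fun_prop
  have hμ' : (μ : ℂ) ≠ 0 := by
    exact_mod_cast hμ.ne'
  refine P3 (fun x => f (r * ee x) / μ * ee (-(n * x))) ?_ (M / μ) ?_ _ ?_
  · have h1 : Continuous fun x : ℝ => f (r * ee x) := hfc.comp (continuous_const.mul hee)
    have h2 : Continuous fun x : ℝ => ee (-(n * x)) := hee.comp (by fun_prop)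
    exact (h1.div_const _).mul h2
  · intro x
    rw [norm_mul, norm_ee, mul_one, norm_div, Complex.norm_real, Real.norm_of_nonneg hμ.le]
    have h1 : ‖(r : ℂ) * ee x‖ = r := by
      rw [norm_mul, norm_ee, mul_one, Complex.norm_real, Real.norm_of_nonneg hr.le]
    exact div_le_div_of_nonneg_right (hM _ h1) hμ.le
  · intro m
    have h1 : ∀ x : ℝ, f (r * ee x) / μ * ee (-(n * x)) * ee (-(m * x)) =
        (f (r * ee x) * ee (-((((n : ℤ) + m : ℤ) : ℝ) * x))) / μ := by
      intro x
      have h2 : ee (-((((n : ℤ) + m : ℤ) : ℝ) * x)) = ee (-(n * x)) * ee (-(m * x)) := by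
        rw [← ee_add]
        congr 1
        push_cast
        ring
      rw [h2]
      ring
    have h3 : (∫ x in (0:ℝ)..1, f (r * ee x) / μ * ee (-(n * x)) * ee (-(m * x))) =
        (∫ x in (0:ℝ)..1, f (r * ee x) * ee (-((((n : ℤ) + m : ℤ) : ℝ) * x))) / μ := by
      simp only [h1]
      rw [intervalIntegral.integral_div]
    rw [h3, P1 a f hf r hr ((n : ℤ) + m)]
    unfold bet
    split_ifs with h
    · rfl
    · simp

end Pool.Agent.LibCH71
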