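import Pool.Agent.LibCH71.Defs

/-! R1 (SHORT, only Mathlib): rows in terms of `w_j = u^j β(q - jd)`. PLAN. Multiply by `u^j`, of norm 1:
`u^j (β(q-jd) + u β(q-jd-d)) = w_j + w_{j+1}`; `norm_mul`, `norm_pow`, `mul_pow`, `push_cast`, `ring_nf`
on the arguments (`congr 1` / `show q - j*d - d = q - (j+1)*d`). -/

set_option autoImplicit false

namespace Pool.Agent.LibCH71

theorem EA_row (β : ℤ → ℂ) (u : ℂ) (hu : ‖u‖ = 1) (q d : ℤ) (j : ℕ) :
    EA β u d (q - j * d) =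
      ‖u ^ j * β (q - j * d) + u ^ (j + 1) * β (q - ((j + 1 : ℕ) : ℤ) * d)‖ ^ 2 := by
  have h1 : q - j * d - d = q - ((j + 1 : ℕ) : ℤ) * d := by
    push_cast
    ring
  have h2 : u ^ j * β (q - j * d) + u ^ (j + 1) * β (q - ((j + 1 : ℕ) : ℤ) * d) =
      u ^ j * (β (q - j * d) + u * β (q - j * d - d)) := by
    rw [h1]
    ring
  rw [h2, norm_mul, norm_pow, hu, one_pow, one_mul, EA]

theorem EB_row (β : ℤ → ℂ) (u : ℂ) (hu : ‖u‖ = 1) (q d : ℤ) (j : ℕ) :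
    EB β u d (q - j * d) =
      ‖u ^ j * β (q - j * d) - u ^ (j + 2) * β (q - ((j + 2 : ℕ) : ℤ) * d)‖ ^ 2 := by
  have h1 : q - j * d - 2 * d = q - ((j + 2 : ℕ) : ℤ) * d := by
    push_cast
    ring
  have h2 : u ^ j * β (q - j * d) - u ^ (j + 2) * β (q - ((j + 2 : ℕ) : ℤ) * d) =
      u ^ j * (β (q - j * d) - u ^ 2 * β (q - j * d - 2 * d)) := by
    rw [h1]
    ring
  rw [h2, norm_mul, norm_pow, hu, one_pow, one_mul, EB]

end Pool.Agent.LibCH71
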