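import Pool.Agent.LibCH71.R1
import Pool.Agent.LibCH71.C1
import Pool.Agent.LibCH71.C2
import Pool.Agent.LibCH71.K1
import Pool.Agent.LibCH71.N1
import Pool.Agent.LibCH71.N2

/-! SE, SS (MEDIUM): the two sides of the case (a), `A = 31/100`, `B = 19/100`, `u = β d/β 0`, `‖u‖ = 1`.
PLAN. SE (`dl = d`, `x = tl^d ≤ 3/4`): `S₁ = {0, -d, -2d, -3d}`, `S₂ = {d, 0, -d, -2d}`. With `q = d` and
`w'_j = u^j β(d - jd)` (`EA_row`, `EB_row`): `w'_0 = β d = u β 0 = w'_1`, so `EB(d) = ‖w'_1 - w'_2‖²`,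
`EB(0) = ‖w'_1 - w'_3‖²`, `EA(0) = ‖w'_1 + w'_2‖²`, ...: `C1` with `w0 = w'_1, w1 = w'_2, ..., w4 = w'_5`
(`‖w'_{j+1}‖ = ‖β(-jd)‖ ≤ tl^(jd) = x^j`, equality for `j = 1` because `dl = d`), then `K1`
(`u` of `C1` is `x`) and `N1`.
SS (`dl < d`, `x = tl^dl ≤ 47/100`): `S₁ = {0,-d,-2d,-3d} ∪ {-dl+d, -dl, -dl-d}`,
`S₂ = {d,0,-d,-2d} ∪ {-dl+d, -dl, -dl-d}` (all different, `omega` as `0 < dl < d`). Lattice part: the same
with `K2` (`‖β(-jd)‖ ≤ tl^(jd) ≤ tl^(dl j) = x^j`). Other part: `q = d - dl`, `w''_j = u^j β(d - dl - jd)`: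
`C2` with `h1 = w''_0, h0 = w''_1, g1 = w''_2, g2 = w''_3, g3 = w''_4`
(`‖h0‖ = x`, `‖g_i‖ ≤ tl^(dl + i d) ≤ x^(i+1)`), then `K3`; the sum of both with `N2`. -/

set_option autoImplicit false

namespace Pool.Agent.LibCH71

/-- a good side -/
def SideOK (β : ℤ → ℂ) (u : ℂ) (d : ℤ) : Prop :=
  ∃ S₁ S₂ : Finset ℤ, (∀ m ∈ S₁, m < d) ∧ (∀ m ∈ S₂, m ≤ d) ∧
    66045 / 100000 ≤ 31 / 100 * ∑ m ∈ S₁, EA β u d m + 19 / 100 * ∑ m ∈ S₂, EB β u d m

private theorem SE_nrm (u z : ℂ) (hu : ‖u‖ = 1) (j : ℕ) : ‖u ^ j * z‖ = ‖z‖ := by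
  rw [norm_mul, norm_pow, hu, one_pow, one_mul]

private theorem SE_A (β : ℤ → ℂ) (u : ℂ) (hu : ‖u‖ = 1) (q d : ℤ) (j : ℕ) (m m' : ℤ) (h1 : q - (j : ℤ) * d = m)
    (h2 : m - d = m') : EA β u d m = ‖u ^ j * β m + u ^ (j + 1) * β m'‖ ^ 2 := by
  have h := EA_row β u hu q d j
  have h3 : q - ((j + 1 : ℕ) : ℤ) * d = m' := by
    rw [← h2, ← h1]
    push_cast
    ring
  rw [h3, h1] at h
  exact h

private theorem SE_B (β : ℤ → ℂ) (u : ℂ) (hu : ‖u‖ = 1) (q d : ℤ) (j : ℕ) (m m' : ℤ) (h1 : q - (j : ℤ) * d = m)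
    (h2 : m - 2 * d = m') : EB β u d m = ‖u ^ j * β m - u ^ (j + 2) * β m'‖ ^ 2 := by
  have h := EB_row β u hu q d j
  have h3 : q - ((j + 2 : ℕ) : ℤ) * d = m' := by
    rw [← h2, ← h1]
    push_cast
    ring
  rw [h3, h1] at h
  exact h

/-- the lattice part -/
private theorem SE_lat (β : ℤ → ℂ) (u : ℂ) (D : ℤ) (hu : ‖u‖ = 1) (h0 : ‖β 0‖ = 1) (hub : u * β 0 = β D) :
    (31/100 + 19/100) * (1 + ‖β (-D)‖ ^ 2) - 2 * (31/100 - 19/100) * ‖β (-D)‖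
      + 31/100 * (‖β (-D)‖ - ‖β (-2 * D)‖) ^ 2
      + 19/100 * (1 - ‖β (-2 * D)‖) ^ 2 + 31/100 * (‖β (-2 * D)‖ - ‖β (-3 * D)‖) ^ 2
      + 19/100 * (‖β (-D)‖ - ‖β (-3 * D)‖) ^ 2 + 31/100 * (‖β (-3 * D)‖ - ‖β (-4 * D)‖) ^ 2
      + 19/100 * (‖β (-2 * D)‖ - ‖β (-4 * D)‖) ^ 2 ≤
    31/100 * (EA β u D 0 + EA β u D (-D) + EA β u D (-2 * D) + EA β u D (-3 * D))
      + 19/100 * (EB β u D D + EB β u D 0 + EB β u D (-D) + EB β u D (-2 * D)) := by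
  have a1 := SE_A β u hu D D 1 0 (-D) (by push_cast; ring) (by ring)
  have a2 := SE_A β u hu D D 2 (-D) (-2 * D) (by push_cast; ring) (by ring)
  have a3 := SE_A β u hu D D 3 (-2 * D) (-3 * D) (by push_cast; ring) (by ring)
  have a4 := SE_A β u hu D D 4 (-3 * D) (-4 * D) (by push_cast; ring) (by ring)
  have b0 := SE_B β u hu D D 0 D (-D) (by push_cast; ring) (by ring)
  have b1 := SE_B β u hu D D 1 0 (-2 * D) (by push_cast; ring) (by ring)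
  have b2 := SE_B β u hu D D 2 (-D) (-3 * D) (by push_cast; ring) (by ring)
  have b3 := SE_B β u hu D D 3 (-2 * D) (-4 * D) (by push_cast; ring) (by ring)
  have hub' : u ^ 0 * β D = u ^ 1 * β 0 := by
    rw [pow_zero, one_mul, pow_one, hub]
  rw [hub'] at b0
  have hw0 : ‖u ^ 1 * β 0‖ = 1 := by rw [SE_nrm u _ hu, h0]
  have key := C1 (u ^ 1 * β 0) (u ^ 2 * β (-D)) (u ^ 3 * β (-2 * D)) (u ^ 4 * β (-3 * D)) (u ^ 5 * β (-4 * D))
    (31/100) (19/100) (by norm_num) (by norm_num) hw0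
  rw [SE_nrm u _ hu, SE_nrm u _ hu, SE_nrm u _ hu, SE_nrm u _ hu] at key
  rw [a1, a2, a3, a4, b0, b1, b2, b3]
  exact key

/-- the part off the lattice -/
private theorem SE_off (β : ℤ → ℂ) (u : ℂ) (D E : ℤ) (hu : ‖u‖ = 1) :
    4278 / 10000 * (‖β (-E)‖ - ‖β (-E - D)‖) ^ 2 + 19 / 100 * (‖β (-E)‖ - ‖β (-E - 2 * D)‖) ^ 2
      + 31 / 100 * (‖β (-E - D)‖ - ‖β (-E - 2 * D)‖) ^ 2
      + 19 / 100 * (‖β (-E - D)‖ - ‖β (-E - 3 * D)‖) ^ 2 ≤
    31 / 100 * (EA β u D (-E + D) + EA β u D (-E) + EA β u D (-E - D))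
      + 19 / 100 * (EB β u D (-E + D) + EB β u D (-E) + EB β u D (-E - D)) := by
  have a1 := SE_A β u hu (-E + D) D 0 (-E + D) (-E) (by push_cast; ring) (by ring)
  have a2 := SE_A β u hu (-E + D) D 1 (-E) (-E - D) (by push_cast; ring) (by ring)
  have a3 := SE_A β u hu (-E + D) D 2 (-E - D) (-E - 2 * D) (by push_cast; ring) (by ring)
  have b1 := SE_B β u hu (-E + D) D 0 (-E + D) (-E - D) (by push_cast; ring) (by ring)
  have b2 := SE_B β u hu (-E + D) D 1 (-E) (-E - 2 * D) (by push_cast; ring) (by ring)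
  have b3 := SE_B β u hu (-E + D) D 2 (-E - D) (-E - 3 * D) (by push_cast; ring) (by ring)
  have key := C2 (u ^ 0 * β (-E + D)) (u ^ 1 * β (-E)) (u ^ 2 * β (-E - D)) (u ^ 3 * β (-E - 2 * D))
    (u ^ 4 * β (-E - 3 * D))
  rw [SE_nrm u (β (-E)) hu, SE_nrm u (β (-E - D)) hu, SE_nrm u (β (-E - 2 * D)) hu,
    SE_nrm u (β (-E - 3 * D)) hu] at key
  rw [a1, a2, a3, b1, b2, b3]
  exact key

private theorem SE_u (β : ℤ → ℂ) (d : ℕ) (h0 : ‖β 0‖ = 1) (hd : ‖β d‖ = 1) :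
    ‖β d / β 0‖ = 1 ∧ β d / β 0 * β 0 = β d := by
  refine ⟨by rw [norm_div, h0, hd, div_one], ?_⟩
  apply div_mul_cancel₀
  intro h
  rw [h, norm_zero] at h0
  exact zero_ne_one h0

private theorem SE_le (β : ℤ → ℂ) (d dl dr : ℕ) (tl tr X : ℝ) (h : Circ β d dl dr tl tr X) (e i : ℕ) (m : ℤ)
    (hm : m = -(e : ℤ)) (hi : dl * i ≤ e) : ‖β m‖ ≤ (tl ^ dl) ^ i := by
  rw [hm]
  refine (h.left e).trans ?_
  rw [← pow_mul]
  exact pow_le_pow_of_le_one h.tl0 h.tl1 hi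

theorem SE (β : ℤ → ℂ) (d dl dr : ℕ) (tl tr X : ℝ) (h : Circ β d dl dr tl tr X)
    (hd : dl = d) (hx : tl ^ dl ≤ 3 / 4) : SideOK β (β d / β 0) d := by
  obtain ⟨hu, hub⟩ := SE_u β d h.b0 h.bd
  have hdp := h.d_pos
  obtain ⟨D, hD⟩ : ∃ D : ℤ, D = (d : ℤ) := ⟨_, rfl⟩
  rw [← hD] at hu hub ⊢
  have hD0 : 0 < D := by omega
  obtain ⟨u, hu'⟩ : ∃ u : ℂ, u = β D / β 0 := ⟨_, rfl⟩
  rw [← hu'] at hu hub ⊢
  have hx1 : ‖β (-D)‖ = tl ^ dl := by
    have := h.leq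
    rw [hd, ← hD] at this
    rw [hd]
    exact this
  have hx0 : 0 ≤ tl ^ dl := pow_nonneg h.tl0 _
  have h2 : ‖β (-2 * D)‖ ≤ (tl ^ dl) ^ 2 :=
    SE_le β d dl dr tl tr X h (2 * d) 2 _ (by push_cast; rw [hD]; ring) (by rw [hd]; omega)
  have h3 : ‖β (-3 * D)‖ ≤ (tl ^ dl) ^ 3 :=
    SE_le β d dl dr tl tr X h (3 * d) 3 _ (by push_cast; rw [hD]; ring) (by rw [hd]; omega)
  have h4 : ‖β (-4 * D)‖ ≤ (tl ^ dl) ^ 4 :=
    SE_le β d dl dr tl tr X h (4 * d) 4 _ (by push_cast; rw [hD]; ring) (by rw [hd]; omega)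
  have key := SE_lat β u D hu h.b0 hub
  rw [hx1] at key
  have k1 := K1 (tl ^ dl) ‖β (-2 * D)‖ ‖β (-3 * D)‖ ‖β (-4 * D)‖ hx0 hx (norm_nonneg _) h2 (norm_nonneg _) h3
    (norm_nonneg _) h4
  have n1 := N1 (tl ^ dl) hx0 hx
  refine ⟨{0, -D, -2 * D, -3 * D}, {D, 0, -D, -2 * D}, ?_, ?_, ?_⟩
  · intro m hm
    simp only [Finset.mem_insert, Finset.mem_singleton] at hm
    omega
  · intro m hm
    simp only [Finset.mem_insert, Finset.mem_singleton] at hm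
    omega
  · rw [Finset.sum_insert (by simp only [Finset.mem_insert, Finset.mem_singleton]; omega),
      Finset.sum_insert (by simp only [Finset.mem_insert, Finset.mem_singleton]; omega),
      Finset.sum_insert (by simp only [Finset.mem_singleton]; omega), Finset.sum_singleton,
      Finset.sum_insert (by simp only [Finset.mem_insert, Finset.mem_singleton]; omega),
      Finset.sum_insert (by simp only [Finset.mem_insert, Finset.mem_singleton]; omega),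
      Finset.sum_insert (by simp only [Finset.mem_singleton]; omega), Finset.sum_singleton]
    refine (n1.trans (k1.trans key)).trans (le_of_eq ?_)
    ring

theorem SS (β : ℤ → ℂ) (d dl dr : ℕ) (tl tr X : ℝ) (h : Circ β d dl dr tl tr X)
    (hd : dl < d) (hx : tl ^ dl ≤ 47 / 100) : SideOK β (β d / β 0) d := by
  obtain ⟨hu, hub⟩ := SE_u β d h.b0 h.bd
  have hdp := h.d_pos
  have hlp := h.dl_pos
  obtain ⟨D, hD⟩ : ∃ D : ℤ, D = (d : ℤ) := ⟨_, rfl⟩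
  obtain ⟨E, hE⟩ : ∃ E : ℤ, E = (dl : ℤ) := ⟨_, rfl⟩
  rw [← hD] at hu hub ⊢
  have hD0 : 0 < D := by omega
  have hE0 : 0 < E := by omega
  have hED : E < D := by omega
  obtain ⟨u, hu'⟩ : ∃ u : ℂ, u = β D / β 0 := ⟨_, rfl⟩
  rw [← hu'] at hu hub ⊢
  have hx1 : ‖β (-E)‖ = tl ^ dl := by
    rw [hE]
    exact h.leq
  have hx0 : 0 ≤ tl ^ dl := pow_nonneg h.tl0 _
  have h2 : ‖β (-2 * D)‖ ≤ (tl ^ dl) ^ 2 :=
    SE_le β d dl dr tl tr X h (2 * d) 2 _ (by push_cast; rw [hD]; ring) (by omega)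
  have h3 : ‖β (-3 * D)‖ ≤ (tl ^ dl) ^ 3 :=
    SE_le β d dl dr tl tr X h (3 * d) 3 _ (by push_cast; rw [hD]; ring) (by omega)
  have h4 : ‖β (-4 * D)‖ ≤ (tl ^ dl) ^ 4 :=
    SE_le β d dl dr tl tr X h (4 * d) 4 _ (by push_cast; rw [hD]; ring) (by omega)
  have g1 : ‖β (-E - D)‖ ≤ (tl ^ dl) ^ 2 :=
    SE_le β d dl dr tl tr X h (dl + d) 2 _ (by push_cast; rw [hD, hE]; ring) (by omega)
  have g2 : ‖β (-E - 2 * D)‖ ≤ (tl ^ dl) ^ 3 :=
    SE_le β d dl dr tl tr X h (dl + 2 * d) 3 _ (by push_cast; rw [hD, hE]; ring) (by omega)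
  have g3 : ‖β (-E - 3 * D)‖ ≤ (tl ^ dl) ^ 4 :=
    SE_le β d dl dr tl tr X h (dl + 3 * d) 4 _ (by push_cast; rw [hD, hE]; ring) (by omega)
  have key := SE_lat β u D hu h.b0 hub
  have key2 := SE_off β u D E hu
  rw [hx1] at key2
  have k2 := K2 (tl ^ dl) ‖β (-D)‖ ‖β (-2 * D)‖ ‖β (-3 * D)‖ ‖β (-4 * D)‖ hx0 hx (norm_nonneg _) h2
    (norm_nonneg _) h3 (norm_nonneg _) h4
  have k3 := K3 (tl ^ dl) ‖β (-E - D)‖ ‖β (-E - 2 * D)‖ ‖β (-E - 3 * D)‖ hx0 hx (norm_nonneg _) g1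
    (norm_nonneg _) g2 (norm_nonneg _) g3
  have n2 := N2 (tl ^ dl) hx0 hx
  refine ⟨{0, -D, -2 * D, -3 * D, -E + D, -E, -E - D}, {D, 0, -D, -2 * D, -E + D, -E, -E - D}, ?_, ?_, ?_⟩
  · intro m hm
    simp only [Finset.mem_insert, Finset.mem_singleton] at hm
    omega
  · intro m hm
    simp only [Finset.mem_insert, Finset.mem_singleton] at hm
    omega
  · rw [Finset.sum_insert (by simp only [Finset.mem_insert, Finset.mem_singleton]; omega),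
      Finset.sum_insert (by simp only [Finset.mem_insert, Finset.mem_singleton]; omega),
      Finset.sum_insert (by simp only [Finset.mem_insert, Finset.mem_singleton]; omega),
      Finset.sum_insert (by simp only [Finset.mem_insert, Finset.mem_singleton]; omega),
      Finset.sum_insert (by simp only [Finset.mem_insert, Finset.mem_singleton]; omega),
      Finset.sum_insert (by simp only [Finset.mem_singleton]; omega), Finset.sum_singleton,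
      Finset.sum_insert (by simp only [Finset.mem_insert, Finset.mem_singleton]; omega),
      Finset.sum_insert (by simp only [Finset.mem_insert, Finset.mem_singleton]; omega),
      Finset.sum_insert (by simp only [Finset.mem_insert, Finset.mem_singleton]; omega),
      Finset.sum_insert (by simp only [Finset.mem_insert, Finset.mem_singleton]; omega),
      Finset.sum_insert (by simp only [Finset.mem_insert, Finset.mem_singleton]; omega),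
      Finset.sum_insert (by simp only [Finset.mem_singleton]; omega), Finset.sum_singleton]
    refine (n2.trans (add_le_add (k2.trans key) (k3.trans key2))).trans (le_of_eq ?_)
    ring

end Pool.Agent.LibCH71
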