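import Pool.Agent.LibCH71.Defs

/-! V1 (MEDIUM, only Mathlib): one step of the Newton polygon. PLAN. For `j > n` with `a j ≠ 0` put
`R j = (‖a n‖/‖a j‖)^(1/(j-n))` (`Real.rpow`), so `‖a j‖ R^j = ‖a n‖ R^n` at `R = R j`, and for
`ρ > 0`: `‖a j‖ ρ^j ≤ ‖a n‖ ρ^n ↔ ρ ≤ R j`, with equality iff `ρ = R j`. `R j → ∞`: for every `T > 0`
the set of `j > n` with `a j ≠ 0`, `R j ≤ T` is finite, since there `‖a j‖ T^j ≥ ‖a n‖ T^n > 0`
while `‖a j‖ T^j → 0` (`hz`). It is not empty for `T = R j₀`, `j₀ > n` with `a j₀ ≠ 0` (`hi`). Let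
`ρ` be the minimum of `R` over this finite set and `n'` the largest `j` with `R j = ρ`
(`Finset.exists_min_image`, then `Finset.max'` of the filtered set). -/

set_option autoImplicit false

namespace Pool.Agent.LibCH71

open Filter Topology

theorem V1 (a : ℕ → ℂ) (hi : ∀ N, ∃ n, N ≤ n ∧ a n ≠ 0)
    (hz : ∀ r : ℝ, 0 ≤ r → Tendsto (fun n => ‖a n‖ * r ^ n) atTop (𝓝 0))
    (n : ℕ) (hn : a n ≠ 0) :
    ∃ (n' : ℕ) (ρ : ℝ), n < n' ∧ 0 < ρ ∧ a n' ≠ 0 ∧ ‖a n‖ * ρ ^ n = ‖a n'‖ * ρ ^ n' ∧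
      (∀ j, n < j → ‖a j‖ * ρ ^ j ≤ ‖a n‖ * ρ ^ n) ∧
      (∀ j, n' < j → ‖a j‖ * ρ ^ j < ‖a n'‖ * ρ ^ n') := by
  have hn0 : 0 < ‖a n‖ := norm_pos_iff.2 hn
  obtain ⟨R, hR⟩ : ∃ R : ℕ → ℝ, ∀ j, R j = (‖a n‖ / ‖a j‖) ^ (((j - n : ℕ) : ℝ)⁻¹) :=
    ⟨_, fun _ => rfl⟩
  have hRpos : ∀ j, a j ≠ 0 → 0 < R j := by
    intro j hj
    rw [hR]
    exact Real.rpow_pos_of_pos (div_pos hn0 (norm_pos_iff.2 hj)) _
  have hRpow : ∀ j, n < j → a j ≠ 0 → R j ^ (j - n) = ‖a n‖ / ‖a j‖ := by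
    intro j hj _
    rw [hR]
    exact Real.rpow_inv_natCast_pow (div_nonneg (norm_nonneg _) (norm_nonneg _)) (by omega)
  have hle : ∀ j, n < j → a j ≠ 0 → ∀ r : ℝ, 0 < r →
      (‖a j‖ * r ^ j ≤ ‖a n‖ * r ^ n ↔ r ≤ R j) := by
    intro j hj hj0 r hr
    have hj1 : 0 < ‖a j‖ := norm_pos_iff.2 hj0
    have e : r ^ j = r ^ n * r ^ (j - n) := by rw [← pow_add]; congr 1; omega
    have h1 : ‖a j‖ * r ^ j ≤ ‖a n‖ * r ^ n ↔ r ^ (j - n) ≤ ‖a n‖ / ‖a j‖ := by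
      rw [le_div_iff₀ hj1, e]
      have hrn : 0 < r ^ n := pow_pos hr n
      constructor
      · intro h
        have h2 : (r ^ (j - n) * ‖a j‖) * r ^ n ≤ ‖a n‖ * r ^ n := by
          have e2 : (r ^ (j - n) * ‖a j‖) * r ^ n = ‖a j‖ * (r ^ n * r ^ (j - n)) := by ring
          rw [e2]
          exact h
        exact le_of_mul_le_mul_right h2 hrn
      · intro h
        have h2 := mul_le_mul_of_nonneg_right h hrn.le
        have e2 : (r ^ (j - n) * ‖a j‖) * r ^ n = ‖a j‖ * (r ^ n * r ^ (j - n)) := by ring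
        rw [e2] at h2
        exact h2
    rw [h1, ← hRpow j hj hj0]
    exact pow_le_pow_iff_left₀ hr.le (hRpos j hj0).le (by omega)
  have heq : ∀ j, n < j → a j ≠ 0 → ‖a n‖ * R j ^ n = ‖a j‖ * R j ^ j := by
    intro j hj hj0
    have hj1 : ‖a j‖ ≠ 0 := norm_ne_zero_iff.2 hj0
    have e : R j ^ j = R j ^ n * R j ^ (j - n) := by rw [← pow_add]; congr 1; omega
    rw [e, hRpow j hj hj0]
    field_simp
  have hlt : ∀ j, n < j → a j ≠ 0 → ∀ r : ℝ, 0 < r → r < R j →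
      ‖a j‖ * r ^ j < ‖a n‖ * r ^ n := by
    intro j hj hj0 r hr hrR
    have hj1 : 0 < ‖a j‖ := norm_pos_iff.2 hj0
    have e : r ^ j = r ^ n * r ^ (j - n) := by rw [← pow_add]; congr 1; omega
    have h1 : r ^ (j - n) < ‖a n‖ / ‖a j‖ := by
      rw [← hRpow j hj hj0]
      exact pow_lt_pow_left₀ hrR hr.le (by omega)
    rw [lt_div_iff₀ hj1] at h1
    have h2 := mul_lt_mul_of_pos_right h1 (pow_pos hr n)
    have e2 : (r ^ (j - n) * ‖a j‖) * r ^ n = ‖a j‖ * r ^ j := by rw [e]; ring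
    rw [e2] at h2
    exact h2
  obtain ⟨j0, hj0, haj0⟩ := hi (n + 1)
  have hj0' : n < j0 := hj0
  have hT : 0 < R j0 := hRpos j0 haj0
  have hev := (hz (R j0) hT.le).eventually (gt_mem_nhds (mul_pos hn0 (pow_pos hT n)))
  obtain ⟨N, hN⟩ := eventually_atTop.1 hev
  have hmemN : ∀ j, n < j → a j ≠ 0 → R j ≤ R j0 → j < N := by
    intro j hj hj1 hjR
    by_contra hc
    push Not at hc
    have h1 := hN j hc
    have h2 := (hle j hj hj1 (R j0) hT).1 h1.le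
    have h3 : R j = R j0 := le_antisymm hjR h2
    have h4 := heq j hj hj1
    rw [h3] at h4
    rw [← h4] at h1
    exact lt_irrefl _ h1
  classical
  obtain ⟨F, hF⟩ : ∃ F : Finset ℕ, F = (Finset.range N).filter fun j => n < j ∧ a j ≠ 0 ∧ R j ≤ R j0 :=
    ⟨_, rfl⟩
  have hFmem : ∀ j, j ∈ F ↔ n < j ∧ a j ≠ 0 ∧ R j ≤ R j0 := by
    intro j
    rw [hF, Finset.mem_filter, Finset.mem_range]
    exact ⟨fun h => h.2, fun h => ⟨hmemN j h.1 h.2.1 h.2.2, h⟩⟩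
  have hj0F : j0 ∈ F := (hFmem j0).2 ⟨hj0', haj0, le_rfl⟩
  obtain ⟨j1, hj1F, hmin⟩ := Finset.exists_min_image F R ⟨j0, hj0F⟩
  have hj1 := (hFmem j1).1 hj1F
  have hρ : ∀ j, n < j → a j ≠ 0 → R j1 ≤ R j := by
    intro j hj hja
    rcases le_or_gt (R j) (R j0) with h | h
    · exact hmin j ((hFmem j).2 ⟨hj, hja, h⟩)
    · exact hj1.2.2.trans h.le
  obtain ⟨G, hG⟩ : ∃ G : Finset ℕ, G = F.filter fun j => R j = R j1 := ⟨_, rfl⟩
  have hGne : G.Nonempty := ⟨j1, by rw [hG, Finset.mem_filter]; exact ⟨hj1F, rfl⟩⟩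
  have hmax := G.max'_mem hGne
  obtain ⟨n', hn'⟩ : ∃ n', n' = G.max' hGne := ⟨_, rfl⟩
  rw [← hn', hG, Finset.mem_filter, hFmem] at hmax
  obtain ⟨⟨hnn', han', _⟩, hRn'⟩ := hmax
  have hρ0 : 0 < R j1 := hRpos j1 hj1.2.1
  have he := heq n' hnn' han'
  rw [hRn'] at he
  refine ⟨n', R j1, hnn', hρ0, han', he, ?_, ?_⟩
  · intro j hj
    by_cases hja : a j = 0
    · rw [hja, norm_zero, zero_mul]
      exact (mul_pos hn0 (pow_pos hρ0 n)).le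
    · exact (hle j hj hja _ hρ0).2 (hρ j hj hja)
  · intro j hj
    rw [← he]
    by_cases hja : a j = 0
    · rw [hja, norm_zero, zero_mul]
      exact mul_pos hn0 (pow_pos hρ0 n)
    · have hj' : n < j := lt_trans hnn' hj
      refine hlt j hj' hja _ hρ0 (lt_of_le_of_ne (hρ j hj' hja) ?_)
      intro h
      have h1 : j ∈ G := by
        rw [hG, Finset.mem_filter, hFmem]
        exact ⟨⟨hj', hja, by rw [← h]; exact hj1.2.2⟩, h.symm⟩
      have h2 := G.le_max' j h1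
      rw [← hn'] at h2
      omega

end Pool.Agent.LibCH71
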